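import Mathlib

/-!
Algebra in semiprime complex algebras: Jordan derivations are derivations (Herstein, Cusack,
Bresar), and the basic identity of biderivations.
-/

set_option autoImplicit false

namespace Pool.Agent.Lib.MP_8cf91f_an.Ban

variable {A : Type*} [Ring A] [Algebra ℂ A]

lemma half {u : A} (h : u + u = 0) : u = 0 := by
  have h1 : (2 : ℂ) • u = 0 := by rw [two_smul, h]
  exact (smul_eq_zero.mp h1).resolve_left two_ne_zero

section jordan

variable (d : A →ₗ[ℂ] A) (hd : ∀ x, d (x * x) = d x * x + x * d x)
include hd

lemma jd_two (a b : A) : d (a * b + b * a) = d a * b + a * d b + d b * a + b * d a := by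
  have e := hd (a + b)
  simp only [add_mul, mul_add, map_add, hd] at e
  rw [map_add]
  linear_combination (norm := noncomm_ring) e

lemma jd_aba (a b : A) : d (a * b * a) = d a * b * a + a * d b * a + a * b * d a := by
  have e1 := jd_two d hd a (a * b + b * a)
  have e2 := jd_two d hd (a * a) b
  have e3 := jd_two d hd a b
  have e4 : a * (a * b + b * a) + (a * b + b * a) * a =
      (a * a * b + b * (a * a)) + (a * b * a + a * b * a) := by noncomm_ring
  rw [e4, map_add, e2, map_add, e3, hd] at e1
  rw [← sub_eq_zero]
  apply half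
  linear_combination (norm := noncomm_ring) e1

lemma jd_abc (a b c : A) : d (a * b * c + c * b * a) =
    d a * b * c + a * d b * c + a * b * d c + (d c * b * a + c * d b * a + c * b * d a) := by
  have e := jd_aba d hd (a + c) b
  have e4 : (a + c) * b * (a + c) = a * b * a + c * b * c + (a * b * c + c * b * a) := by
    noncomm_ring
  rw [e4, map_add, map_add, jd_aba d hd, jd_aba d hd, map_add d a c] at e
  linear_combination (norm := noncomm_ring) e

lemma jd_key (a b x : A) :
    (d (a * b) - d a * b - a * d b) * x * (a * b - b * a) +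
      (a * b - b * a) * x * (d (a * b) - d a * b - a * d b) = 0 := by
  have e1 := jd_abc d hd (a * b) x (b * a)
  have e2 : a * b * x * (b * a) + b * a * x * (a * b) =
      a * (b * x * b) * a + b * (a * x * a) * b := by noncomm_ring
  rw [e2, map_add, jd_aba d hd a, jd_aba d hd b (a * x * a), jd_aba d hd b x,
    jd_aba d hd a x] at e1
  have e3 := jd_two d hd a b
  rw [map_add] at e3
  have e4 : d (b * a) = d a * b + a * d b + d b * a + b * d a - d (a * b) := by
    rw [← e3]
    abel
  rw [e4] at e1
  linear_combination (norm := noncomm_ring) e1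

end jordan

section semiprime

variable (hs : ∀ u : A, (∀ x, u * x * u = 0) → u = 0)
include hs

lemma sp_anti {u v : A} (h : ∀ x, u * x * v + v * x * u = 0) (x : A) : u * x * v = 0 := by
  refine hs _ fun y => half ?_
  have e1 := h x
  have e2 := h (x * u * y)
  have e3 := h y
  linear_combination (norm := noncomm_ring) e1 * (y * u * x * v) - e2 * (x * v) +
    u * x * e3 * (x * v)

omit [Algebra ℂ A] in
lemma sp_lin {f g : A → A} (hf : ∀ a c, f (a + c) = f a + f c) (hg : ∀ a c, g (a + c) = g a + g c)
    (h : ∀ a x, f a * x * g a = 0) (a c x : A) : f a * x * g c = 0 := by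
  refine hs _ fun y => ?_
  have e1 := h (a + c) x
  rw [hf, hg] at e1
  have e2 := h a x
  have e3 := h c x
  have e4 := h a (x * g c * y * f c * x)
  linear_combination (norm := noncomm_ring) f a * x * g c * y * (e1 - e2 - e3) - e4

omit [Algebra ℂ A] in
lemma sp_central {u : A} (h : ∀ x c e, u * x * (c * e - e * c) = 0) (c : A) : u * c = c * u := by
  rw [← sub_eq_zero]
  refine hs _ fun x => ?_
  have e1 := h (c * x) u c
  have e2 := h x u c
  linear_combination (norm := noncomm_ring) e1 - c * e2

omit [Algebra ℂ A] in
lemma sp_sq {u : A} (hc : ∀ c, u * c = c * u) (h : u * u = 0) : u = 0 :=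
  hs _ fun x => by rw [mul_assoc, ← hc, ← mul_assoc, h, zero_mul]

/-- A Jordan derivation of a semiprime complex algebra is a derivation. -/
lemma derivation_of_jordan (d : A →ₗ[ℂ] A) (hd : ∀ x, d (x * x) = d x * x + x * d x)
    (a b : A) : d (a * b) = d a * b + a * d b := by
  have h1 : ∀ a b x : A, (d (a * b) - d a * b - a * d b) * x * (a * b - b * a) = 0 :=
    fun a b => sp_anti hs (jd_key d hd a b)
  have h2 : ∀ b a c x : A, (d (a * b) - d a * b - a * d b) * x * (c * b - b * c) = 0 :=
    fun b => sp_lin hs (f := fun a => d (a * b) - d a * b - a * d b)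
      (g := fun c => c * b - b * c)
      (fun a c => by simp only [add_mul, map_add]; abel)
      (fun a c => by simp only [add_mul, mul_add]; abel) (fun a => h1 a b)
  have h3 : ∀ a c b e x : A, (d (a * b) - d a * b - a * d b) * x * (c * e - e * c) = 0 :=
    fun a c => sp_lin hs (f := fun b => d (a * b) - d a * b - a * d b)
      (g := fun e => c * e - e * c)
      (fun a c => by simp only [mul_add, map_add]; abel)
      (fun a c => by simp only [add_mul, mul_add]; abel) (fun b => h2 b a c)
  set u : A := d (a * b) - d a * b - a * d b with hu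
  have h4 : ∀ x c e, u * x * (c * e - e * c) = 0 := fun x c e => h3 a c b e x
  have h5 : ∀ c, u * c = c * u := sp_central hs h4
  have h6 : ∀ c e, u * (c * e - e * c) = 0 := fun c e => by simpa using h4 1 c e
  set k : A := a * b - b * a with hk
  have h7 : u * k = 0 := h6 a b
  have h8 : u * u + u * u = u * d k := by
    have e1 := jd_two d hd a b
    have e2 := h6 (d a) b
    have e3 := h6 a (d b)
    rw [map_add] at e1
    have e4 : u + u = d k - (d a * b - b * d a) - (a * d b - d b * a) := by
      rw [hk, map_sub, hu]
      linear_combination (norm := noncomm_ring) e1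
    rw [← mul_add, e4, mul_sub, mul_sub, e2, e3, sub_zero, sub_zero]
  have h9 : u * (u * d k) = 0 := by
    have e1 := jd_two d hd u k
    rw [← h5 k, h7, add_zero, map_zero, ← h5 (d k)] at e1
    apply half
    have e2 : u * (d u * k) = 0 := by rw [← mul_assoc, h5, mul_assoc, h7, mul_zero]
    have e3 : u * (k * d u) = 0 := by rw [← mul_assoc, h7, zero_mul]
    linear_combination (norm := noncomm_ring) -(u * e1) - e2 - e3
  have h10 : u * (u * u) = 0 := by
    apply half
    rw [← mul_add, h8, h9]
  have h11 : u * u = 0 := sp_sq hs (fun c => by rw [mul_assoc, h5, ← mul_assoc, h5, mul_assoc])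
    (by rw [mul_assoc, h10, mul_zero])
  have h12 : u = 0 := sp_sq hs h5 h11
  rw [hu] at h12
  linear_combination (norm := noncomm_ring) h12

end semiprime

omit [Algebra ℂ A] in
/-- The basic identity of biderivations. -/
lemma bider (β : A → A → A) (h1 : ∀ x u y, β (x * u) y = β x y * u + x * β u y)
    (h2 : ∀ x y v, β x (y * v) = β x y * v + y * β x v) (x y z u v : A) :
    β x y * z * (u * v - v * u) = (x * y - y * x) * z * β u v := by
  have h3 : ∀ u v, β x y * (u * v - v * u) = (x * y - y * x) * β u v := by
    intro u v
    have e1 := h1 x u (y * v)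
    rw [h2 (x * u), h1, h1, h2 x, h2 u] at e1
    linear_combination (norm := noncomm_ring) e1
  have e1 := h3 (z * u) v
  have e2 := h3 z v
  rw [h1] at e1
  linear_combination (norm := noncomm_ring) e1 - e2 * u

end Pool.Agent.Lib.MP_8cf91f_an.Ban
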