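import Mathlib

/-!
Kadison's inequality `S(h)^2 ≤ S(h^2)` for a positive unital real-linear map, via
Bernstein polynomials.
-/

set_option autoImplicit false

namespace Pool.Agent.Lib.MP_8cf91f_an

open Polynomial Finset Filter Topology

variable {A : Type*} [CStarAlgebra A] [PartialOrder A] [StarOrderedRing A]

lemma bern_nonneg {h : A} (h0 : 0 ≤ h) (h1 : h ≤ 1) (n i : ℕ) :
    0 ≤ aeval h (bernsteinPolynomial ℝ n i) := by
  have h2 : 0 ≤ 1 - h := sub_nonneg.mpr h1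
  have hc : Commute (h ^ i) ((1 - h) ^ (n - i)) :=
    ((Commute.one_right h).sub_right (Commute.refl h)).pow_pow _ _
  have h3 : 0 ≤ h ^ i * (1 - h) ^ (n - i) :=
    Commute.mul_nonneg (CStarAlgebra.pow_nonneg h0 i) (CStarAlgebra.pow_nonneg h2 _) hc
  have h4 : aeval h (bernsteinPolynomial ℝ n i) =
      (n.choose i) • (h ^ i * (1 - h) ^ (n - i)) := by
    simp [bernsteinPolynomial, mul_assoc]
  rw [h4]
  exact nsmul_nonneg h3 _

lemma kadison_aux (S : A →ₗ[ℝ] A) (hS1 : S 1 = 1) (hpos : ∀ x, 0 ≤ x → 0 ≤ S x)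
    {h : A} (h0 : 0 ≤ h) (h1 : h ≤ 1) (n : ℕ) :
    0 ≤ ((n : ℝ) * (n - 1)) • S (h * h) + (n : ℝ) • S h - ((n : ℝ) ^ 2) • (S h * S h) := by
  set P : ℕ → A := fun i => S (aeval h (bernsteinPolynomial ℝ n i)) with hP
  have hP0 : ∀ i, 0 ≤ P i := fun i => hpos _ (bern_nonneg h0 h1 n i)
  have hk : IsSelfAdjoint (S h) := IsSelfAdjoint.of_nonneg (hpos h h0)
  have s0 : ∑ i ∈ range (n + 1), P i = 1 := by
    simp only [hP]
    rw [← map_sum, ← map_sum, bernsteinPolynomial.sum, map_one, hS1]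
  have s1 : ∑ i ∈ range (n + 1), (i : ℝ) • P i = (n : ℝ) • S h := by
    have := congrArg (fun p => S (aeval h p)) (bernsteinPolynomial.sum_smul ℝ n)
    simp only [map_sum, map_nsmul, aeval_X] at this
    simpa only [hP, Nat.cast_smul_eq_nsmul] using this
  have s2 : ∑ i ∈ range (n + 1), ((i : ℝ) * (i - 1)) • P i =
      ((n : ℝ) * (n - 1)) • S (h * h) := by
    have := congrArg (fun p => S (aeval h p)) (bernsteinPolynomial.sum_mul_smul ℝ n)
    simp only [map_sum, map_nsmul, map_pow, aeval_X] at this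
    have e : ∀ m : ℕ, ∀ x : A, (m * (m - 1)) • x = ((m : ℝ) * (m - 1)) • x := by
      intro m x
      rw [← Nat.cast_smul_eq_nsmul ℝ]
      congr 1
      rcases m with _ | m
      · simp
      · simp
    simpa only [hP, e, sq] using this
  have key : 0 ≤ ∑ i ∈ range (n + 1),
      ((i : ℝ) • (1 : A) - (n : ℝ) • S h) * P i * ((i : ℝ) • (1 : A) - (n : ℝ) • S h) := by
    refine sum_nonneg fun i _ => ?_
    refine IsSelfAdjoint.conjugate_nonneg (hP0 i) ?_
    refine IsSelfAdjoint.sub ?_ ?_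
    · exact (IsSelfAdjoint.all _).smul (IsSelfAdjoint.one A)
    · exact (IsSelfAdjoint.all _).smul hk
  have expand : ∀ i : ℕ,
      ((i : ℝ) • (1 : A) - (n : ℝ) • S h) * P i * ((i : ℝ) • (1 : A) - (n : ℝ) • S h) =
      ((i : ℝ) * (i - 1)) • P i + (i : ℝ) • P i - (n : ℝ) • (S h * ((i : ℝ) • P i))
        - (n : ℝ) • (((i : ℝ) • P i) * S h) + ((n : ℝ) ^ 2) • (S h * P i * S h) := by
    intro i
    simp only [sub_mul, mul_sub, smul_mul_assoc, mul_smul_comm, one_mul, mul_one, smul_smul]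
    module
  simp only [expand, sum_add_distrib, sum_sub_distrib, ← smul_sum, ← mul_sum, ← sum_mul,
    s0, s1, s2] at key
  convert key using 1
  simp only [smul_mul_assoc, mul_smul_comm, mul_one, smul_smul]
  module

lemma kadison_unit (S : A →ₗ[ℝ] A) (hS1 : S 1 = 1) (hpos : ∀ x, 0 ≤ x → 0 ≤ S x)
    {h : A} (h0 : 0 ≤ h) (h1 : h ≤ 1) : 0 ≤ S (h * h) - S h * S h := by
  have lim : Tendsto (fun n : ℕ => S (h * h) - S h * S h + ((n : ℝ)⁻¹) • (S h - S (h * h)))
      atTop (𝓝 (S (h * h) - S h * S h + (0 : ℝ) • (S h - S (h * h)))) :=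
    tendsto_const_nhds.add (tendsto_inv_atTop_nhds_zero_nat.smul_const _)
  rw [zero_smul, add_zero] at lim
  refine ge_of_tendsto lim ?_
  filter_upwards [eventually_gt_atTop 0] with n hn
  have hn' : (0 : ℝ) < n := by exact_mod_cast hn
  have := smul_nonneg (show (0 : ℝ) ≤ ((n : ℝ) ^ 2)⁻¹ by positivity)
    (kadison_aux S hS1 hpos h0 h1 n)
  convert this using 1
  simp only [smul_add, smul_sub, smul_smul]
  have e1 : ((n : ℝ) ^ 2)⁻¹ * ((n : ℝ) * (n - 1)) = 1 - (n : ℝ)⁻¹ := by field_simp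
  have e2 : ((n : ℝ) ^ 2)⁻¹ * (n : ℝ) = (n : ℝ)⁻¹ := by field_simp
  have e3 : ((n : ℝ) ^ 2)⁻¹ * (n : ℝ) ^ 2 = 1 := by field_simp
  rw [e1, e2, e3]
  module

/-- Kadison's inequality. -/
lemma kadison (S : A →ₗ[ℝ] A) (hS1 : S 1 = 1) (hpos : ∀ x, 0 ≤ x → 0 ≤ S x)
    {h : A} (hh : IsSelfAdjoint h) : 0 ≤ S (h * h) - S h * S h := by
  set c : ℝ := ‖h‖ + 1 with hc
  have hc0 : 0 < c := by positivity
  have hle : h ≤ c • (1 : A) := by
    calc h ≤ algebraMap ℝ A ‖h‖ := hh.le_algebraMap_norm_self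
      _ = ‖h‖ • (1 : A) := Algebra.algebraMap_eq_smul_one _
      _ ≤ c • (1 : A) := smul_le_smul_of_nonneg_right (by simp [hc]) zero_le_one
  have hge : -(c • (1 : A)) ≤ h := by
    calc -(c • (1 : A)) ≤ -(‖h‖ • (1 : A)) :=
          neg_le_neg (smul_le_smul_of_nonneg_right (by simp [hc]) zero_le_one)
      _ = -(algebraMap ℝ A ‖h‖) := by rw [Algebra.algebraMap_eq_smul_one]
      _ ≤ h := hh.neg_algebraMap_norm_le_self
  set g : A := (2 * c)⁻¹ • (h + c • (1 : A)) with hg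
  have g0 : 0 ≤ g := smul_nonneg (by positivity) (by rwa [← neg_le_iff_add_nonneg])
  have g1 : g ≤ 1 := by
    have : h + c • (1 : A) ≤ (2 * c) • (1 : A) := by
      rw [two_mul, add_smul c c]
      exact add_le_add_left hle _
    calc g ≤ (2 * c)⁻¹ • ((2 * c) • (1 : A)) := smul_le_smul_of_nonneg_left this (by positivity)
      _ = 1 := by rw [smul_smul, inv_mul_cancel₀ (by positivity), one_smul]
  have := smul_nonneg (show (0 : ℝ) ≤ (2 * c) ^ 2 by positivity) (kadison_unit S hS1 hpos g0 g1)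
  convert this using 1
  have e : h = (2 * c) • g - c • (1 : A) := by
    rw [hg, smul_smul, mul_inv_cancel₀ (by positivity), one_smul, add_sub_cancel_right]
  clear_value g
  rw [e]
  simp only [sub_mul, mul_sub, smul_mul_assoc, mul_smul_comm, one_mul, mul_one,
    map_sub, map_smul, hS1]
  module

end Pool.Agent.Lib.MP_8cf91f_an
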