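import Mathlib
import Pool.Agent.Lib.MP_8cf91f_an.Kadison

/-!
A star-preserving bounded operator `E` with `E 1 = 0` that is tangent at the identity to a curve
of operators that do not decrease the norm of self-adjoint elements is a Jordan derivation.
-/

set_option autoImplicit false

namespace Pool.Agent.Lib.MP_8cf91f_an

open Filter Topology NormedSpace

variable {A : Type*} [CStarAlgebra A]

lemma deriv_eq_zero_of_nonneg [PartialOrder A] [StarOrderedRing A] {φ : ℝ → A} {d : A}
    (hφ : HasDerivAt φ d 0) (h0 : φ 0 = 0) (hpos : ∀ t, 0 ≤ φ t) : d = 0 := by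
  apply le_antisymm
  · refine le_of_tendsto hφ.tendsto_slope_zero_left ?_
    filter_upwards [self_mem_nhdsWithin] with t ht
    rw [h0, sub_zero]
    have ht' : t < 0 := ht
    have : 0 ≤ (-t⁻¹) • φ (0 + t) := smul_nonneg (by
      have := inv_lt_zero.mpr ht'
      linarith) (hpos _)
    rwa [neg_smul, neg_nonneg] at this
  · refine ge_of_tendsto hφ.tendsto_slope_zero_right ?_
    filter_upwards [self_mem_nhdsWithin] with t ht
    rw [h0, sub_zero]
    have ht' : 0 < t := ht
    exact smul_nonneg (by positivity) (hpos _)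

lemma exists_flow {X : Type*} [NormedAddCommGroup X] [NormedSpace ℝ X] [CompleteSpace X]
    (E : X →L[ℝ] X) : ∃ S : ℝ → (X →L[ℝ] X), (∀ x, S 0 x = x) ∧
      (∀ s t x, S (s + t) x = S s (S t x)) ∧ HasDerivAt S E 0 ∧
      (∀ J : X →L[ℝ] X, (∀ x, J (E x) = E (J x)) → ∀ t x, J (S t x) = S t (J x)) ∧
      (∀ x, E x = 0 → ∀ t, S t x = x) := by
  let +nondep : NormedAlgebra ℚ (X →L[ℝ] X) := .restrictScalars ℚ ℝ _
  refine ⟨fun t => exp (t • E), by simp, ?_, ?_, ?_, ?_⟩
  · intro s t x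
    simp only
    rw [add_smul, exp_add_of_commute (((Commute.refl E).smul_left _).smul_right _)]
    rfl
  · simpa using hasDerivAt_exp_smul_const E (0 : ℝ)
  · intro J hJ t x
    have hc : Commute J (t • E) := by
      refine Commute.smul_right ?_ t
      ext y
      exact hJ y
    exact congrArg (fun F : X →L[ℝ] X => F x) hc.exp_right.eq
  · intro x hx t
    have hd : ∀ s : ℝ, HasDerivAt (fun s : ℝ => exp (s • E) x) 0 s := by
      intro s
      have := (hasDerivAt_exp_smul_const E s).clm_apply (hasDerivAt_const s x)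
      simpa [hx] using this
    have := is_const_of_deriv_eq_zero (fun s => (hd s).differentiableAt)
      (fun s => (hd s).deriv) t 0
    simpa using this

lemma flow_lower {X : Type*} [NormedAddCommGroup X] [NormedSpace ℝ X] (P : X → Prop)
    (γ S : ℝ → (X →L[ℝ] X)) (E : X →L[ℝ] X) (hγ : HasDerivAt γ E 0) (hγ0 : ∀ x, γ 0 x = x)
    (hS : HasDerivAt S E 0) (hS0 : ∀ x, S 0 x = x) (hadd : ∀ s t x, S (s + t) x = S s (S t x))
    (hlow : ∀ t, ∀ h, P h → ‖h‖ ≤ ‖γ t h‖) (hsa : ∀ t x, P x → P (S t x))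
    (s : ℝ) {h : X} (hh : P h) : ‖h‖ ≤ ‖S s h‖ := by
  have hd : HasDerivAt (fun t : ℝ => γ t - S t) 0 0 := by
    have := hγ.sub hS
    rw [sub_self] at this
    exact this
  have h00 : γ 0 - S 0 = 0 := by
    ext x
    simp [hγ0, hS0]
  have main : ∀ ε : ℝ, 0 < ε → (1 - ε * |s|) * ‖h‖ ≤ ‖S s h‖ := by
    intro ε hε
    have ho := (hasDerivAt_iff_isLittleO.mp hd).def hε
    have ht : Tendsto (fun n : ℕ => s / n) atTop (𝓝 0) := tendsto_const_div_atTop_nhds_zero_nat s
    have hsmall : ∀ᶠ t : ℝ in 𝓝 0, ε * |t| < 1 := by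
      have : Tendsto (fun t : ℝ => ε * |t|) (𝓝 0) (𝓝 (ε * |0|)) :=
        (continuous_const.mul continuous_abs).tendsto 0
      exact this.eventually (gt_mem_nhds (by simp))
    obtain ⟨n, ⟨hn1, hn2⟩, hn0⟩ :=
      ((ht.eventually (ho.and hsmall)).and (eventually_gt_atTop 0)).exists
    set t : ℝ := s / n with htdef
    have hn0' : (0 : ℝ) < n := by exact_mod_cast hn0
    have hn1' : ‖γ t - S t‖ ≤ ε * |t| := by
      simpa [h00] using hn1
    have step : ∀ x : X, P x → (1 - ε * |t|) * ‖x‖ ≤ ‖S t x‖ := by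
      intro x hx
      have h1 := hlow t x hx
      have h2 : ‖γ t x‖ ≤ ‖S t x‖ + ‖(γ t - S t) x‖ := by
        have : γ t x = S t x + (γ t - S t) x := by simp
        conv_lhs => rw [this]
        exact norm_add_le _ _
      have h3 : ‖(γ t - S t) x‖ ≤ ε * |t| * ‖x‖ :=
        ((γ t - S t).le_opNorm x).trans (by gcongr)
      linarith
    have iter : ∀ k : ℕ, (1 - ε * |t|) ^ k * ‖h‖ ≤ ‖S (k * t) h‖ := by
      intro k
      induction k with
      | zero => simp [hS0]
      | succ k ih =>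
        have e : ((k + 1 : ℕ) : ℝ) * t = t + k * t := by push_cast; ring
        rw [e, hadd]
        refine le_trans ?_ (step _ (hsa _ _ hh))
        rw [pow_succ', mul_assoc]
        exact mul_le_mul_of_nonneg_left ih (by linarith)
    have hs : s = n * t := by
      rw [htdef, mul_div_cancel₀ _ hn0'.ne']
    have bern : 1 - ε * |s| ≤ (1 - ε * |t|) ^ n := by
      have := one_add_mul_le_pow (a := -(ε * |t|)) (by linarith) n
      have e : (n : ℝ) * -(ε * |t|) = -(ε * |s|) := by
        rw [htdef, abs_div, abs_of_pos hn0']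
        field_simp
      rw [e] at this
      simpa [sub_eq_add_neg] using this
    have := iter n
    rw [← hs] at this
    exact le_trans (mul_le_mul_of_nonneg_right bern (norm_nonneg _)) this
  have lim : Tendsto (fun ε : ℝ => (1 - ε * |s|) * ‖h‖) (𝓝[>] 0) (𝓝 ((1 - 0 * |s|) * ‖h‖)) := by
    refine Tendsto.mono_left ?_ nhdsWithin_le_nhds
    exact Continuous.tendsto (by fun_prop) 0
  have := le_of_tendsto lim (by
    filter_upwards [self_mem_nhdsWithin] with ε hε using main ε hε)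
  simpa using this

/-- The key lemma. -/
lemma jordan_of_curve (γ : ℝ → (A →L[ℝ] A)) (E : A →L[ℝ] A) (hγ : HasDerivAt γ E 0)
    (hγ0 : ∀ x, γ 0 x = x) (hlow : ∀ t, ∀ h, IsSelfAdjoint h → ‖h‖ ≤ ‖γ t h‖)
    (hE : ∀ x, E (star x) = star (E x)) (hE1 : E 1 = 0) {h : A} (hh : IsSelfAdjoint h) :
    E (h * h) = E h * h + h * E h := by
  let _ := CStarAlgebra.spectralOrder A
  have _ := CStarAlgebra.spectralOrderedRing A
  obtain ⟨S, hS0, hadd, hS, hcomm, hfix⟩ := exists_flow E
  have hsa : ∀ (t : ℝ) (x : A), IsSelfAdjoint x → IsSelfAdjoint (S t x) := by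
    intro t x hx
    have := hcomm (starL' ℝ : A ≃L[ℝ] A) (fun y => (hE y).symm) t x
    change star (S t x) = S t (star x) at this
    rw [IsSelfAdjoint, this, hx.star_eq]
  have upper : ∀ (s : ℝ) (x : A), IsSelfAdjoint x → ‖S s x‖ ≤ ‖x‖ := by
    intro s x hx
    have h1 := flow_lower IsSelfAdjoint γ S E hγ hγ0 hS hS0 hadd hlow hsa (-s) (hsa s x hx)
    rwa [← hadd, neg_add_cancel, hS0] at h1
  have pos : ∀ (s : ℝ) (x : A), 0 ≤ x → 0 ≤ S s x := by
    intro s x hx
    have hx' : IsSelfAdjoint x := IsSelfAdjoint.of_nonneg hx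
    have hy : IsSelfAdjoint (algebraMap ℝ A ‖x‖ - x) :=
      (IsSelfAdjoint.algebraMap A (IsSelfAdjoint.all _)).sub hx'
    have hy0 : 0 ≤ algebraMap ℝ A ‖x‖ - x := sub_nonneg.mpr hx'.le_algebraMap_norm_self
    have hy1 : ‖algebraMap ℝ A ‖x‖ - x‖ ≤ ‖x‖ :=
      (CStarAlgebra.norm_le_iff_le_algebraMap _ (norm_nonneg x) hy0).mpr (sub_le_self _ hx)
    have e : S s (algebraMap ℝ A ‖x‖ - x) = algebraMap ℝ A ‖x‖ - S s x := by
      rw [map_sub, Algebra.algebraMap_eq_smul_one, map_smul, hfix 1 hE1]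
    have h3 := (hsa s _ hy).le_algebraMap_norm_self
    have h4 : algebraMap ℝ A ‖S s (algebraMap ℝ A ‖x‖ - x)‖ ≤ algebraMap ℝ A ‖x‖ := by
      have h6 := (upper s _ hy).trans hy1
      generalize ‖S s (algebraMap ℝ A ‖x‖ - x)‖ = c at h6
      rw [Algebra.algebraMap_eq_smul_one, Algebra.algebraMap_eq_smul_one ‖x‖]
      exact smul_le_smul_of_nonneg_right h6 zero_le_one
    have h5 := h3.trans h4
    rw [e] at h5
    exact (sub_le_self_iff _).mp h5
  have hφ : HasDerivAt (fun t : ℝ => S t (h * h) - S t h * S t h)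
      (E (h * h) - (E h * h + h * E h)) 0 := by
    have hd : ∀ x : A, HasDerivAt (fun t : ℝ => S t x) (E x) 0 := by
      intro x
      have := hS.clm_apply (hasDerivAt_const (0 : ℝ) x)
      simpa using this
    have := (hd (h * h)).fun_sub ((hd h).fun_mul (hd h))
    simpa only [hS0] using this
  have := deriv_eq_zero_of_nonneg hφ (by simp [hS0]) (fun t =>
    kadison (S t).toLinearMap (hfix 1 hE1 t) (pos t) hh)
  exact sub_eq_zero.mp this

end Pool.Agent.Lib.MP_8cf91f_an
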