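import Mathlib
import Pool.Agent.Lib.MP_8cf91f_an.Deriv

/-!
For a bicontinuous unital spectral isometry `T : A → B`, the operator `T⁻¹ ∘ ad b ∘ T` is a
Jordan derivation of `A`.
-/

set_option autoImplicit false

namespace Pool.Agent.Lib.MP_8cf91f_an

open Filter Topology NormedSpace

lemma exists_conj_curve {B : Type*} [NormedRing B] [NormedAlgebra ℝ B] [CompleteSpace B] (b : B) :
    ∃ (m : ℝ → (B →L[ℝ] B)) (M : B →L[ℝ] B), HasDerivAt m M 0 ∧ (∀ y, M y = b * y - y * b) ∧
      (∀ y, m 0 y = y) ∧ ∀ t, ∃ u v : B, u * v = 1 ∧ v * u = 1 ∧ ∀ y, m t y = u * y * v := by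
  let +nondep : NormedAlgebra ℚ B := .restrictScalars ℚ ℝ _
  have h1 : HasDerivAt (fun t : ℝ => exp (t • b)) b 0 := by
    simpa using hasDerivAt_exp_smul_const b (0 : ℝ)
  have h2 : HasDerivAt (fun t : ℝ => exp (t • (-b))) (-b) 0 := by
    simpa using hasDerivAt_exp_smul_const (-b) (0 : ℝ)
  have h4 := (hasDerivAt_const (0 : ℝ) (ContinuousLinearMap.mul ℝ B)).clm_apply h1
  have h5 := (hasDerivAt_const (0 : ℝ) (ContinuousLinearMap.mul ℝ B).flip).clm_apply h2
  have h3 := h4.clm_comp h5
  refine ⟨_, _, h3, ?_, ?_, ?_⟩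
  · intro y
    simp [sub_eq_add_neg]
  · intro y
    simp
  · intro t
    have hc : Commute (t • b) (t • (-b)) :=
      (((Commute.refl b).neg_right).smul_left _).smul_right _
    refine ⟨exp (t • b), exp (t • (-b)), ?_, ?_, fun y => by simp [mul_assoc]⟩
    · rw [← exp_add_of_commute hc]
      simp
    · rw [← exp_add_of_commute hc.symm]
      simp

variable {A B : Type*} [CStarAlgebra A] [CStarAlgebra B]

lemma sr_star (x : A) : spectralRadius ℂ (star x) = spectralRadius ℂ x := by
  have key : ∀ y : A, spectralRadius ℂ (star y) ≤ spectralRadius ℂ y := by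
    intro y
    refine iSup₂_le fun k hk => ?_
    rw [spectrum.map_star, Set.mem_star] at hk
    refine le_iSup₂_of_le (star k) hk ?_
    simp
  refine le_antisymm (key x) ?_
  simpa using key (star x)

lemma sr_conj {u v : B} (huv : u * v = 1) (hvu : v * u = 1) (x : B) :
    spectralRadius ℂ (u * x * v) = spectralRadius ℂ x := by
  have := spectrum.units_conjugate (R := ℂ) (a := x) (u := ⟨u, v, huv, hvu⟩)
  change spectrum ℂ (u * x * v) = spectrum ℂ x at this
  rw [spectralRadius, spectralRadius, this]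

lemma norm_le_of_sr {h y : A} (hh : IsSelfAdjoint h)
    (e : spectralRadius ℂ y = spectralRadius ℂ h) : ‖h‖ ≤ ‖y‖ := by
  nontriviality A
  have := spectrum.spectralRadius_le_nnnorm (𝕜 := ℂ) y
  rw [e, hh.spectralRadius_eq_nnnorm] at this
  exact_mod_cast this

lemma jordan_half (T : A ≃L[ℂ] B) (hT1 : T 1 = 1)
    (hT : ∀ x, spectralRadius ℂ (T x) = spectralRadius ℂ x) (b : B) (D : A → A)
    (hD : ∀ x, D x = T.symm (b * T x - T x * b)) {h : A} (hh : IsSelfAdjoint h) :
    D (h * h) + star (D (h * h)) = (D h + star (D h)) * h + h * (D h + star (D h)) := by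
  obtain ⟨m, M, hm, hM, hm0, hmt⟩ := exists_conj_curve b
  let Tr : A →L[ℝ] B := (T : A →L[ℂ] B).restrictScalars ℝ
  let Ti : B →L[ℝ] A := (T.symm : B →L[ℂ] A).restrictScalars ℝ
  let J : A →L[ℝ] A := (starL' ℝ : A ≃L[ℝ] A)
  have hTr : ∀ x, Tr x = T x := fun _ => rfl
  have hTi : ∀ y, Ti y = T.symm y := fun _ => rfl
  have hJ : ∀ x, J x = star x := fun _ => rfl
  have hc := (hasDerivAt_const (0 : ℝ) Ti).clm_comp (hm.clm_comp (hasDerivAt_const (0 : ℝ) Tr))
  have hJ' := hasDerivAt_const (0 : ℝ) J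
  have hγ := hc.clm_comp (hJ'.clm_comp (hc.clm_comp hJ'))
  have hTs : ∀ y, spectralRadius ℂ (T.symm y) = spectralRadius ℂ y := by
    intro y
    rw [← hT, T.apply_symm_apply]
  have hT1' : T.symm 1 = 1 := by rw [← hT1, T.symm_apply_apply]
  have key := jordan_of_curve _ _ hγ (by
      intro x
      simp [hTr, hTi, hJ, hm0]) (by
      intro t x hx
      apply norm_le_of_sr hx
      obtain ⟨u, v, huv, hvu, hy⟩ := hmt t
      simp only [ContinuousLinearMap.comp_apply, hTr, hTi, hJ, hy]
      rw [hTs, sr_conj huv hvu, hT, sr_star, hTs, sr_conj huv hvu, hT, sr_star]) (by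
      intro x
      simp [hTr, hTi, hJ, hm0, add_comm]) (by
      simp [hTr, hTi, hJ, hm0, hM, hT1, hT1']) hh
  have hh2 : star (h * h) = h * h := by rw [star_mul, hh.star_eq]
  simpa [hTr, hTi, hJ, hm0, hM, hD, hh.star_eq, hh2] using key

lemma jordan_sa (T : A ≃L[ℂ] B) (hT1 : T 1 = 1)
    (hT : ∀ x, spectralRadius ℂ (T x) = spectralRadius ℂ x) (b : B) (D : A → A)
    (hD : ∀ x, D x = T.symm (b * T x - T x * b)) {h : A} (hh : IsSelfAdjoint h) :
    D (h * h) = D h * h + h * D h := by
  have h1 := jordan_half T hT1 hT b D hD hh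
  have h2 := jordan_half T hT1 hT (Complex.I • b) (fun x => Complex.I • D x) (by
    intro x
    simp only [hD, smul_mul_assoc, mul_smul_comm, ← smul_sub, map_smul]) hh
  simp only [star_smul, RCLike.star_def, Complex.conj_I, neg_smul, ← sub_eq_add_neg,
    ← smul_sub, smul_mul_assoc, mul_smul_comm, ← smul_add] at h2
  have h3 := smul_right_injective A Complex.I_ne_zero h2
  have h4 : (2 : ℂ) • D (h * h) = (2 : ℂ) • (D h * h + h * D h) := by
    have : (2 : ℂ) • D (h * h) =
        (D (h * h) + star (D (h * h))) + (D (h * h) - star (D (h * h))) := by module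
    rw [this, h1, h3]
    simp only [add_mul, mul_add, sub_mul, mul_sub]
    module
  exact smul_right_injective A two_ne_zero h4

lemma jordan_all (D : A →ₗ[ℂ] A) (hD : ∀ h, IsSelfAdjoint h → D (h * h) = D h * h + h * D h)
    (x : A) : D (x * x) = D x * x + x * D x := by
  obtain ⟨h, k, hh, hk, rfl⟩ : ∃ h k : A, IsSelfAdjoint h ∧ IsSelfAdjoint k ∧
      x = h + Complex.I • k :=
    ⟨realPart x, imaginaryPart x, (realPart x).2, (imaginaryPart x).2,
      (realPart_add_I_smul_imaginaryPart x).symm⟩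
  have e1 := hD h hh
  have e2 := hD k hk
  have e3 := hD (h + k) (hh.add hk)
  simp only [add_mul, mul_add, map_add, e1, e2] at e3
  have e4 : D (k * h) + D (h * k) = D k * h + D h * k + (k * D h + h * D k) := by
    have := e3
    linear_combination (norm := noncomm_ring) this
  simp only [add_mul, mul_add, map_add, smul_mul_assoc, mul_smul_comm, map_smul, e1, e2]
  have e5 : Complex.I • D (k * h) + Complex.I • D (h * k) =
      Complex.I • (D k * h + D h * k + (k * D h + h * D k)) := by rw [← smul_add, e4]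
  linear_combination (norm := module) e5

/-- If `b` commutes with `T x` then it commutes with `T (x * x)`. -/
lemma comm_sq (T : A ≃L[ℂ] B) (hT1 : T 1 = 1)
    (hT : ∀ x, spectralRadius ℂ (T x) = spectralRadius ℂ x) {b : B} {x : A}
    (hb : Commute b (T x)) : Commute b (T (x * x)) := by
  let D : A →ₗ[ℂ] A := (T.symm : B →ₗ[ℂ] A) ∘ₗ
    (LinearMap.mulLeft ℂ b - LinearMap.mulRight ℂ b) ∘ₗ (T : A →ₗ[ℂ] B)
  have hD : ∀ x, D x = T.symm (b * T x - T x * b) := fun _ => rfl
  have h1 := jordan_all D (fun h hh => jordan_sa T hT1 hT b D hD hh) x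
  have h2 : D x = 0 := by rw [hD, hb.eq, sub_self, map_zero]
  rw [h2, zero_mul, mul_zero, add_zero, hD] at h1
  have h3 : b * T (x * x) - T (x * x) * b = 0 := by
    simpa using congrArg T h1
  exact sub_eq_zero.mp h3

end Pool.Agent.Lib.MP_8cf91f_an
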