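import Mathlib
import Pool.Agent.Lib.MP_8cf91f_an.Conj

/-!
Injectivity and automatic continuity of surjective spectral isometries between unital
C*-algebras (three circles argument of Ransford).
-/

set_option autoImplicit false

namespace Pool.Agent.Lib.MP_8cf91f_an

open Filter Topology

variable {A B : Type*} [CStarAlgebra A] [CStarAlgebra B]

lemma exists_pow_lt {a : B} {M : ℝ} (hM : 0 < M) (h : spectralRadius ℂ a < ENNReal.ofReal M) :
    ∃ j : ℕ, ‖a ^ (2 ^ j)‖ < M ^ (2 ^ j) := by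
  have h1 := (spectrum.pow_norm_pow_one_div_tendsto_nhds_spectralRadius a).comp
    (tendsto_pow_atTop_atTop_of_one_lt (r := (2 : ℕ)) one_lt_two)
  obtain ⟨j, hj⟩ := (h1.eventually (gt_mem_nhds h)).exists
  refine ⟨j, ?_⟩
  simp only [Function.comp_apply] at hj
  rw [ENNReal.ofReal_lt_ofReal_iff hM] at hj
  have hn : (2 ^ j : ℕ) ≠ 0 := by positivity
  have h2 := pow_lt_pow_left₀ hj (by positivity) hn
  rwa [one_div, Real.rpow_inv_natCast_pow (norm_nonneg _) hn] at h2

lemma pow_lt_mono {a : B} {M : ℝ} {j k : ℕ} (hjk : j ≤ k) (h : ‖a ^ (2 ^ j)‖ < M ^ (2 ^ j)) :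
    ‖a ^ (2 ^ k)‖ < M ^ (2 ^ k) := by
  induction k, hjk using Nat.le_induction with
  | base => exact h
  | succ k _ ih =>
    rw [pow_succ 2 k, pow_mul, pow_mul, sq, sq]
    exact (norm_mul_le _ _).trans_lt (mul_self_lt_mul_self (norm_nonneg _) ih)

lemma sr_le_of_pow {a : B} {c : ℝ} (hc : 0 ≤ c) {N : ℕ} (hN : N ≠ 0) (h : ‖a ^ N‖ ≤ c ^ N) :
    spectralRadius ℂ a ≤ ENNReal.ofReal c := by
  nontriviality B
  refine iSup₂_le fun z hz => ?_
  have h1 : ‖z ^ N‖ ≤ ‖a ^ N‖ := spectrum.norm_le_norm_of_mem (spectrum.pow_mem_pow a N hz)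
  rw [norm_pow] at h1
  have h2 : ‖z‖ ≤ c := (pow_le_pow_iff_left₀ (norm_nonneg _) hc hN).mp (h1.trans h)
  rw [← ENNReal.ofReal_coe_nnreal]
  exact ENNReal.ofReal_le_ofReal h2

lemma sr_le_norm (a : B) : spectralRadius ℂ a ≤ ENNReal.ofReal ‖a‖ :=
  sr_le_of_pow (norm_nonneg a) one_ne_zero (by simp)

lemma uniform_pow {K : Set ℂ} (hK : IsCompact K) {p : ℂ → B} (hp : Continuous p) {M : ℝ}
    (hM : 0 < M) (h : ∀ z ∈ K, spectralRadius ℂ (p z) < ENNReal.ofReal M) :
    ∃ j : ℕ, ∀ k, j ≤ k → ∀ z ∈ K, ‖p z ^ (2 ^ k)‖ < M ^ (2 ^ k) := by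
  obtain ⟨j, hj⟩ := hK.elim_directed_cover (fun j : ℕ => {z | ‖p z ^ (2 ^ j)‖ < M ^ (2 ^ j)})
    (fun j => isOpen_lt (by fun_prop) continuous_const)
    (fun z hz => Set.mem_iUnion.mpr (exists_pow_lt hM (h z hz)))
    (Monotone.directed_le fun j k hjk z hz => pow_lt_mono hjk hz)
  exact ⟨j, fun k hk z hz => pow_lt_mono hk (hj hz)⟩

lemma three_circles (u v : B) {L M m : ℝ} (hL : 0 < L) (hM : 0 < M) (hm : 0 < m)
    (h1 : ∀ z : ℂ, ‖z‖ = Real.exp L → spectralRadius ℂ (v + z • u) < ENNReal.ofReal M)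
    (h2 : ∀ z : ℂ, ‖z‖ = Real.exp (-L) → spectralRadius ℂ (v + z • u) < ENNReal.ofReal m) :
    spectralRadius ℂ (v + u) ≤ ENNReal.ofReal (Real.sqrt (m * M)) := by
  have hp : Continuous fun z : ℂ => v + z • u := by fun_prop
  obtain ⟨j1, hj1⟩ := uniform_pow (isCompact_sphere (0 : ℂ) (Real.exp L)) hp hM
    (fun z hz => h1 z (by simpa using hz))
  obtain ⟨j2, hj2⟩ := uniform_pow (isCompact_sphere (0 : ℂ) (Real.exp (-L))) hp hm
    (fun z hz => h2 z (by simpa using hz))
  set N : ℕ := 2 ^ (max j1 j2) with hN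
  have hN0 : N ≠ 0 := by positivity
  have hd : Differentiable ℂ fun w : ℂ => (v + Complex.exp w • u) ^ N := by fun_prop
  have key := Complex.HadamardThreeLines.norm_le_interp_of_mem_verticalClosedStrip'
    (f := fun w : ℂ => (v + Complex.exp w • u) ^ N) (z := 0) (a := m ^ N) (b := M ^ N)
    (l := -L) (u := L) (by linarith)
    (by simp [Complex.HadamardThreeLines.verticalClosedStrip, hL.le]) hd.diffContOnCl
    (by
      refine ⟨(‖v‖ + Real.exp L * ‖u‖) ^ N, ?_⟩
      rintro _ ⟨w, hw, rfl⟩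
      have hw' : w.re ≤ L := hw.2
      refine (norm_pow_le' _ (Nat.pos_of_ne_zero hN0)).trans ?_
      gcongr
      refine (norm_add_le _ _).trans ?_
      rw [norm_smul, Complex.norm_exp]
      gcongr)
    (by
      intro w hw
      have hw' : w.re = -L := hw
      exact (hj2 _ (le_max_right _ _) _ (by simp [Complex.norm_exp, hw'])).le)
    (by
      intro w hw
      have hw' : w.re = L := hw
      exact (hj1 _ (le_max_left _ _) _ (by simp [Complex.norm_exp, hw'])).le)
  have e1 : ((0 : ℂ).re - -L) / (L - -L) = 1 / 2 := by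
    simp only [Complex.zero_re]
    field_simp
    ring
  rw [e1] at key
  simp only [Complex.exp_zero, one_smul] at key
  refine sr_le_of_pow (Real.sqrt_nonneg _) hN0 (key.trans_eq ?_)
  have e2 : (1 : ℝ) - 1 / 2 = 1 / 2 := by norm_num
  rw [e2, ← Real.mul_rpow (by positivity) (by positivity), ← mul_pow, Real.sqrt_eq_rpow,
    ← Real.rpow_natCast, ← Real.rpow_natCast, ← Real.rpow_mul (by positivity),
    ← Real.rpow_mul (by positivity), mul_comm (N : ℝ)]

lemma sr_usc {w₀ : B} {ε : ℝ} (hε : 0 < ε) (h : spectralRadius ℂ w₀ = 0) :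
    ∃ δ > 0, ∀ w, ‖w - w₀‖ < δ → spectralRadius ℂ w < ENNReal.ofReal ε := by
  obtain ⟨j, hj⟩ := exists_pow_lt (a := w₀) (half_pos hε) (by
    rw [h]
    exact ENNReal.ofReal_pos.mpr (half_pos hε))
  have ho : IsOpen {w : B | ‖w ^ (2 ^ j)‖ < (ε / 2) ^ (2 ^ j)} :=
    isOpen_lt (by fun_prop) continuous_const
  obtain ⟨δ, hδ, hb⟩ := Metric.isOpen_iff.mp ho w₀ hj
  refine ⟨δ, hδ, fun w hw => ?_⟩
  have := hb (mem_ball_iff_norm.mpr hw)
  refine (sr_le_of_pow (half_pos hε).le (by positivity) (le_of_lt this)).trans_lt ?_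
  exact (ENNReal.ofReal_lt_ofReal_iff hε).mpr (half_lt_self hε)

lemma separating (T : A →ₗ[ℂ] B) (hsurj : Function.Surjective T)
    (hT : ∀ x, spectralRadius ℂ (T x) = spectralRadius ℂ x) {a : ℕ → A} {b : B}
    (ha : Tendsto a atTop (𝓝 0)) (hb : Tendsto (fun n => T (a n)) atTop (𝓝 b)) {y : B}
    (hy : spectralRadius ℂ (y - b) = 0) : spectralRadius ℂ y = 0 := by
  obtain ⟨x, rfl⟩ := hsurj y
  have main : ∀ ε : ℝ, 0 < ε →
      spectralRadius ℂ (T x) ≤ ENNReal.ofReal (Real.sqrt (ε * (‖x‖ + 1))) := by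
    intro ε hε
    obtain ⟨δ, hδ, hw⟩ := sr_usc hε hy
    have hL : ∃ L : ℝ, 0 < L ∧ Real.exp (-L) * (‖b‖ + 1) < δ / 2 := by
      have : Tendsto (fun L : ℝ => Real.exp (-L) * (‖b‖ + 1)) atTop (𝓝 (0 * (‖b‖ + 1))) :=
        Real.tendsto_exp_neg_atTop_nhds_zero.mul_const _
      rw [zero_mul] at this
      exact ((eventually_gt_atTop 0).and (this.eventually (gt_mem_nhds (half_pos hδ)))).exists
    obtain ⟨L, hL0, hL⟩ := hL
    have e1 : ∀ᶠ n in atTop, ‖T (a n) - b‖ < min 1 (δ / 2) :=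
      (tendsto_iff_norm_sub_tendsto_zero.mp hb).eventually (gt_mem_nhds (by positivity))
    have e2 : ∀ᶠ n in atTop, (1 + Real.exp L) * ‖a n‖ < 1 := by
      have : Tendsto (fun n => (1 + Real.exp L) * ‖a n‖) atTop (𝓝 ((1 + Real.exp L) * 0)) :=
        (tendsto_zero_iff_norm_tendsto_zero.mp ha).const_mul _
      exact this.eventually (gt_mem_nhds (by simp))
    obtain ⟨n, hn1, hn2⟩ := (e1.and e2).exists
    have hn3 : ‖T (a n)‖ ≤ ‖b‖ + 1 := by
      have := norm_le_norm_add_norm_sub' (T (a n)) b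
      have := hn1.trans_le (min_le_left _ _)
      linarith
    have := three_circles (T (a n)) (T x - T (a n)) hL0 (show 0 < ‖x‖ + 1 by positivity) hε
      (by
        intro z hz
        have e : T x - T (a n) + z • T (a n) = T (x - a n + z • a n) := by simp
        rw [e, hT]
        refine (sr_le_norm _).trans_lt ((ENNReal.ofReal_lt_ofReal_iff (by positivity)).mpr ?_)
        have h1 := norm_add_le (x - a n) (z • a n)
        have h2 := norm_sub_le x (a n)
        rw [norm_smul, hz] at h1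
        linarith)
      (by
        intro z hz
        apply hw
        have e : T x - T (a n) + z • T (a n) - (T x - b) = z • T (a n) - (T (a n) - b) := by
          abel
        rw [e]
        have h1 := norm_sub_le (z • T (a n)) (T (a n) - b)
        rw [norm_smul, hz] at h1
        have h2 := hn1.trans_le (min_le_right _ _)
        have h3 : Real.exp (-L) * ‖T (a n)‖ ≤ Real.exp (-L) * (‖b‖ + 1) := by gcongr
        linarith)
    rwa [sub_add_cancel] at this
  have lim : Tendsto (fun ε : ℝ => ENNReal.ofReal (Real.sqrt (ε * (‖x‖ + 1)))) (𝓝[>] 0)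
      (𝓝 (ENNReal.ofReal (Real.sqrt (0 * (‖x‖ + 1))))) := by
    refine Tendsto.mono_left ?_ nhdsWithin_le_nhds
    exact (ENNReal.continuous_ofReal.comp (by fun_prop)).tendsto 0
  have := ge_of_tendsto lim (by
    filter_upwards [self_mem_nhdsWithin] with ε hε using main ε hε)
  simpa using this

lemma eq_zero_of_sa {h : A} (hh : IsSelfAdjoint h) (e : spectralRadius ℂ h = 0) : h = 0 := by
  rw [hh.spectralRadius_eq_nnnorm] at e
  simpa using e

lemma eq_zero_of_rad {b : A}
    (h : ∀ (c : ℂ) (y : A), spectralRadius ℂ (y - c • b) = 0 → spectralRadius ℂ y = 0) :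
    b = 0 := by
  have key : ∀ c : ℂ, c • b + star (c • b) = 0 := by
    intro c
    apply eq_zero_of_sa (IsSelfAdjoint.add_star_self _)
    apply h c
    rw [add_sub_cancel_left, sr_star]
    apply h c
    simp
  have h1 := key 1
  have h2 := key Complex.I
  simp only [one_smul, star_smul, RCLike.star_def, Complex.conj_I, neg_smul,
    ← sub_eq_add_neg, ← smul_sub] at h1 h2
  have h3 : b - star b = 0 := (smul_eq_zero.mp h2).resolve_left Complex.I_ne_zero
  have h4 : (2 : ℂ) • b = 0 := by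
    have : (2 : ℂ) • b = (b + star b) + (b - star b) := by module
    rw [this, h1, h3, add_zero]
  exact (smul_eq_zero.mp h4).resolve_left two_ne_zero

lemma injective_of_sr (T : A →ₗ[ℂ] B)
    (hT : ∀ x, spectralRadius ℂ (T x) = spectralRadius ℂ x) : Function.Injective T := by
  rw [injective_iff_map_eq_zero]
  intro b hb
  apply eq_zero_of_rad
  intro c y hy
  rwa [← hT, map_sub, map_smul, hb, smul_zero, sub_zero, hT] at hy

lemma continuous_of_sr (T : A →ₗ[ℂ] B) (hsurj : Function.Surjective T)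
    (hT : ∀ x, spectralRadius ℂ (T x) = spectralRadius ℂ x) : Continuous T := by
  refine T.continuous_of_seq_closed_graph fun u x y hu hy => ?_
  rw [← sub_eq_zero]
  apply eq_zero_of_rad
  intro c w hw
  refine separating T hsurj hT (a := fun n => c • (u n - x)) ?_ ?_ hw
  · have := (hu.sub_const x).const_smul c
    simpa using this
  · have := (hy.sub_const (T x)).const_smul c
    simpa using this

end Pool.Agent.Lib.MP_8cf91f_an
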