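import Mathlib
import Pool.Agent.Lib.MP_8cf91f_an.Cont

/-!
Spectral lemmas for general unital complex Banach algebras (no involution, no normalisation of
the unit): three circles, automatic continuity, commuting pairs, characters of the centre.
-/

set_option autoImplicit false
set_option linter.unusedSectionVars false

namespace Pool.Agent.Lib.MP_8cf91f_an.Ban

open Filter Topology

variable {A B : Type*} [NormedRing A] [NormedAlgebra ℂ A] [CompleteSpace A]
  [NormedRing B] [NormedAlgebra ℂ B] [CompleteSpace B]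

lemma norm_le_of_mem {a : B} {z : ℂ} (hz : z ∈ spectrum ℂ a) : ‖z‖ ≤ ‖a‖ := by
  by_contra h
  rw [not_le] at h
  have h0 : z ≠ 0 := by
    rintro rfl
    exact absurd h (by simp)
  have h1 : ‖z⁻¹ • a‖ < 1 := by
    rw [norm_smul, norm_inv, inv_mul_lt_one₀ (norm_pos_iff.mpr h0)]
    exact h
  refine spectrum.mem_iff.mp hz ?_
  have h2 : algebraMap ℂ B z - a = algebraMap ℂ B z * (1 - z⁻¹ • a) := by
    rw [Algebra.algebraMap_eq_smul_one, smul_mul_assoc, one_mul, smul_sub, smul_smul,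
      mul_inv_cancel₀ h0, one_smul]
  rw [h2]
  exact ((Ne.isUnit h0).map (algebraMap ℂ B)).mul (Units.oneSub _ h1).isUnit

lemma exists_pow_lt {a : B} {M : ℝ} (hM : 0 < M) (h : spectralRadius ℂ a < ENNReal.ofReal M) :
    ∃ j : ℕ, ‖a ^ (2 ^ j)‖ < M ^ (2 ^ j) := by
  have h1 := (spectrum.pow_norm_pow_one_div_tendsto_nhds_spectralRadius a).comp
    (tendsto_pow_atTop_atTop_of_one_lt (r := (2 : ℕ)) one_lt_two)
  obtain ⟨j, hj⟩ := (h1.eventually (gt_mem_nhds h)).exists
  refine ⟨j, ?_⟩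
  simp only [Function.comp_apply] at hj
  rw [ENNReal.ofReal_lt_ofReal_iff hM] at hj
  have hn : (2 ^ j : ℕ) ≠ 0 := by positivity
  have h2 := pow_lt_pow_left₀ hj (by positivity) hn
  rwa [one_div, Real.rpow_inv_natCast_pow (norm_nonneg _) hn] at h2

lemma pow_lt_mono {a : B} {M : ℝ} {j k : ℕ} (hjk : j ≤ k) (h : ‖a ^ (2 ^ j)‖ < M ^ (2 ^ j)) :
    ‖a ^ (2 ^ k)‖ < M ^ (2 ^ k) := by
  induction k, hjk using Nat.le_induction with
  | base => exact h
  | succ k _ ih =>
    rw [pow_succ 2 k, pow_mul, pow_mul, sq, sq]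
    exact (norm_mul_le _ _).trans_lt (mul_self_lt_mul_self (norm_nonneg _) ih)

lemma sr_le_of_pow {a : B} {c : ℝ} (hc : 0 ≤ c) {N : ℕ} (hN : N ≠ 0) (h : ‖a ^ N‖ ≤ c ^ N) :
    spectralRadius ℂ a ≤ ENNReal.ofReal c := by
  refine iSup₂_le fun z hz => ?_
  have h1 : ‖z ^ N‖ ≤ ‖a ^ N‖ := norm_le_of_mem (spectrum.pow_mem_pow a N hz)
  rw [norm_pow] at h1
  have h2 : ‖z‖ ≤ c := (pow_le_pow_iff_left₀ (norm_nonneg _) hc hN).mp (h1.trans h)
  rw [← ENNReal.ofReal_coe_nnreal]
  exact ENNReal.ofReal_le_ofReal h2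

lemma sr_le_norm (a : B) : spectralRadius ℂ a ≤ ENNReal.ofReal ‖a‖ :=
  sr_le_of_pow (norm_nonneg a) one_ne_zero (by simp)

lemma uniform_pow {K : Set ℂ} (hK : IsCompact K) {p : ℂ → B} (hp : Continuous p) {M : ℝ}
    (hM : 0 < M) (h : ∀ z ∈ K, spectralRadius ℂ (p z) < ENNReal.ofReal M) :
    ∃ j : ℕ, ∀ k, j ≤ k → ∀ z ∈ K, ‖p z ^ (2 ^ k)‖ < M ^ (2 ^ k) := by
  obtain ⟨j, hj⟩ := hK.elim_directed_cover (fun j : ℕ => {z | ‖p z ^ (2 ^ j)‖ < M ^ (2 ^ j)})
    (fun j => isOpen_lt (by fun_prop) continuous_const)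
    (fun z hz => Set.mem_iUnion.mpr (exists_pow_lt hM (h z hz)))
    (Monotone.directed_le fun j k hjk z hz => pow_lt_mono hjk hz)
  exact ⟨j, fun k hk z hz => pow_lt_mono hk (hj hz)⟩

lemma three_circles (u v : B) {L M m : ℝ} (hL : 0 < L) (hM : 0 < M) (hm : 0 < m)
    (h1 : ∀ z : ℂ, ‖z‖ = Real.exp L → spectralRadius ℂ (v + z • u) < ENNReal.ofReal M)
    (h2 : ∀ z : ℂ, ‖z‖ = Real.exp (-L) → spectralRadius ℂ (v + z • u) < ENNReal.ofReal m) :
    spectralRadius ℂ (v + u) ≤ ENNReal.ofReal (Real.sqrt (m * M)) := by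
  have hp : Continuous fun z : ℂ => v + z • u := by fun_prop
  obtain ⟨j1, hj1⟩ := uniform_pow (isCompact_sphere (0 : ℂ) (Real.exp L)) hp hM
    (fun z hz => h1 z (by simpa using hz))
  obtain ⟨j2, hj2⟩ := uniform_pow (isCompact_sphere (0 : ℂ) (Real.exp (-L))) hp hm
    (fun z hz => h2 z (by simpa using hz))
  set N : ℕ := 2 ^ (max j1 j2) with hN
  have hN0 : N ≠ 0 := by positivity
  have hd : Differentiable ℂ fun w : ℂ => (v + Complex.exp w • u) ^ N := by fun_prop
  have key := Complex.HadamardThreeLines.norm_le_interp_of_mem_verticalClosedStrip'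
    (f := fun w : ℂ => (v + Complex.exp w • u) ^ N) (z := 0) (a := m ^ N) (b := M ^ N)
    (l := -L) (u := L) (by linarith)
    (by simp [Complex.HadamardThreeLines.verticalClosedStrip, hL.le]) hd.diffContOnCl
    (by
      refine ⟨(‖v‖ + Real.exp L * ‖u‖) ^ N, ?_⟩
      rintro _ ⟨w, hw, rfl⟩
      have hw' : w.re ≤ L := hw.2
      refine (norm_pow_le' _ (Nat.pos_of_ne_zero hN0)).trans ?_
      gcongr
      refine (norm_add_le _ _).trans ?_
      rw [norm_smul, Complex.norm_exp]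
      gcongr)
    (by
      intro w hw
      have hw' : w.re = -L := hw
      exact (hj2 _ (le_max_right _ _) _ (by simp [Complex.norm_exp, hw'])).le)
    (by
      intro w hw
      have hw' : w.re = L := hw
      exact (hj1 _ (le_max_left _ _) _ (by simp [Complex.norm_exp, hw'])).le)
  have e1 : ((0 : ℂ).re - -L) / (L - -L) = 1 / 2 := by
    simp only [Complex.zero_re]
    field_simp
    ring
  rw [e1] at key
  simp only [Complex.exp_zero, one_smul] at key
  refine sr_le_of_pow (Real.sqrt_nonneg _) hN0 (key.trans_eq ?_)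
  have e2 : (1 : ℝ) - 1 / 2 = 1 / 2 := by norm_num
  rw [e2, ← Real.mul_rpow (by positivity) (by positivity), ← mul_pow, Real.sqrt_eq_rpow,
    ← Real.rpow_natCast, ← Real.rpow_natCast, ← Real.rpow_mul (by positivity),
    ← Real.rpow_mul (by positivity), mul_comm (N : ℝ)]

lemma sr_usc {w₀ : B} {ε : ℝ} (hε : 0 < ε) (h : spectralRadius ℂ w₀ = 0) :
    ∃ δ > 0, ∀ w, ‖w - w₀‖ < δ → spectralRadius ℂ w < ENNReal.ofReal ε := by
  obtain ⟨j, hj⟩ := exists_pow_lt (a := w₀) (half_pos hε) (by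
    rw [h]
    exact ENNReal.ofReal_pos.mpr (half_pos hε))
  have ho : IsOpen {w : B | ‖w ^ (2 ^ j)‖ < (ε / 2) ^ (2 ^ j)} :=
    isOpen_lt (by fun_prop) continuous_const
  obtain ⟨δ, hδ, hb⟩ := Metric.isOpen_iff.mp ho w₀ hj
  refine ⟨δ, hδ, fun w hw => ?_⟩
  have := hb (mem_ball_iff_norm.mpr hw)
  refine (sr_le_of_pow (half_pos hε).le (by positivity) (le_of_lt this)).trans_lt ?_
  exact (ENNReal.ofReal_lt_ofReal_iff hε).mpr (half_lt_self hε)

lemma separating (T : A →ₗ[ℂ] B) (hsurj : Function.Surjective T)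
    (hT : ∀ x, spectralRadius ℂ (T x) = spectralRadius ℂ x) {a : ℕ → A} {b : B}
    (ha : Tendsto a atTop (𝓝 0)) (hb : Tendsto (fun n => T (a n)) atTop (𝓝 b)) {y : B}
    (hy : spectralRadius ℂ (y - b) = 0) : spectralRadius ℂ y = 0 := by
  obtain ⟨x, rfl⟩ := hsurj y
  have main : ∀ ε : ℝ, 0 < ε →
      spectralRadius ℂ (T x) ≤ ENNReal.ofReal (Real.sqrt (ε * (‖x‖ + 1))) := by
    intro ε hε
    obtain ⟨δ, hδ, hw⟩ := sr_usc hε hy
    have hL : ∃ L : ℝ, 0 < L ∧ Real.exp (-L) * (‖b‖ + 1) < δ / 2 := by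
      have : Tendsto (fun L : ℝ => Real.exp (-L) * (‖b‖ + 1)) atTop (𝓝 (0 * (‖b‖ + 1))) :=
        Real.tendsto_exp_neg_atTop_nhds_zero.mul_const _
      rw [zero_mul] at this
      exact ((eventually_gt_atTop 0).and (this.eventually (gt_mem_nhds (half_pos hδ)))).exists
    obtain ⟨L, hL0, hL⟩ := hL
    have e1 : ∀ᶠ n in atTop, ‖T (a n) - b‖ < min 1 (δ / 2) :=
      (tendsto_iff_norm_sub_tendsto_zero.mp hb).eventually (gt_mem_nhds (by positivity))
    have e2 : ∀ᶠ n in atTop, (1 + Real.exp L) * ‖a n‖ < 1 := by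
      have : Tendsto (fun n => (1 + Real.exp L) * ‖a n‖) atTop (𝓝 ((1 + Real.exp L) * 0)) :=
        (tendsto_zero_iff_norm_tendsto_zero.mp ha).const_mul _
      exact this.eventually (gt_mem_nhds (by simp))
    obtain ⟨n, hn1, hn2⟩ := (e1.and e2).exists
    have hn3 : ‖T (a n)‖ ≤ ‖b‖ + 1 := by
      have := norm_le_norm_add_norm_sub' (T (a n)) b
      have := hn1.trans_le (min_le_left _ _)
      linarith
    have := three_circles (T (a n)) (T x - T (a n)) hL0 (show 0 < ‖x‖ + 1 by positivity) hε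
      (by
        intro z hz
        have e : T x - T (a n) + z • T (a n) = T (x - a n + z • a n) := by simp
        rw [e, hT]
        refine (sr_le_norm _).trans_lt ((ENNReal.ofReal_lt_ofReal_iff (by positivity)).mpr ?_)
        have h1 := norm_add_le (x - a n) (z • a n)
        have h2 := norm_sub_le x (a n)
        rw [norm_smul, hz] at h1
        linarith)
      (by
        intro z hz
        apply hw
        have e : T x - T (a n) + z • T (a n) - (T x - b) = z • T (a n) - (T (a n) - b) := by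
          abel
        rw [e]
        have h1 := norm_sub_le (z • T (a n)) (T (a n) - b)
        rw [norm_smul, hz] at h1
        have h2 := hn1.trans_le (min_le_right _ _)
        have h3 : Real.exp (-L) * ‖T (a n)‖ ≤ Real.exp (-L) * (‖b‖ + 1) := by gcongr
        linarith)
    rwa [sub_add_cancel] at this
  have lim : Tendsto (fun ε : ℝ => ENNReal.ofReal (Real.sqrt (ε * (‖x‖ + 1)))) (𝓝[>] 0)
      (𝓝 (ENNReal.ofReal (Real.sqrt (0 * (‖x‖ + 1))))) := by
    refine Tendsto.mono_left ?_ nhdsWithin_le_nhds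
    exact (ENNReal.continuous_ofReal.comp (by fun_prop)).tendsto 0
  have := ge_of_tendsto lim (by
    filter_upwards [self_mem_nhdsWithin] with ε hε using main ε hε)
  simpa using this

/-- For commuting `u, v` and a point `μ` of the spectrum of `v - u * u` there is a joint
eigenvalue `(α, β)` of the pair. -/
lemma exists_joint {u v : B} (huv : Commute u v) {μ : ℂ} (hμ : μ ∈ spectrum ℂ (v - u * u)) :
    ∃ α β : ℂ, μ = β - α * α ∧ α ∈ spectrum ℂ u ∧
      ∀ l : ℂ, β - 2 * l * α + l * l ∈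
        spectrum ℂ (v - (2 * l) • u + (l * l) • (1 : B)) := by
  let s : Set B := {u, v}
  have hs : ∀ x ∈ s, ∀ y ∈ s, x * y = y * x := by
    rintro x (rfl | rfl) y (rfl | rfl)
    · rfl
    · exact huv.eq
    · exact huv.eq.symm
    · rfl
  let S : Subalgebra ℂ B := Subalgebra.centralizer ℂ (Set.centralizer s)
  have hmem : ∀ x : B, x ∈ S ↔ ∀ g ∈ Set.centralizer s, g * x = x * g := fun x =>
    Subalgebra.mem_centralizer_iff ℂ
  have hclosed : IsClosed (S : Set B) := by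
    have : (S : Set B) = ⋂ g ∈ Set.centralizer s, {x | g * x = x * g} := by
      ext x
      simp only [SetLike.mem_coe, hmem, Set.mem_iInter, Set.mem_ofPred_eq]
    rw [this]
    exact isClosed_biInter fun g _ => isClosed_eq (by fun_prop) (by fun_prop)
  have hcomm : ∀ x y : S, x * y = y * x := fun x y =>
    Subtype.ext (Set.centralizer_centralizer_comm_of_comm hs _ x.2 _ y.2)
  let _ : NormedCommRing S := { (inferInstance : NormedRing S) with mul_comm := hcomm }
  have _ : CompleteSpace S := hclosed.completeSpace_coe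
  have hunit : ∀ x : S, IsUnit (x : B) → IsUnit x := by
    intro x hx
    obtain ⟨w, hw⟩ := hx
    have hi : ((w⁻¹ : Bˣ) : B) ∈ S := by
      rw [hmem]
      intro g hg
      have h1 : Commute g (w : B) := by
        rw [hw]
        exact (hmem _).mp x.2 g hg
      exact h1.units_inv_right.eq
    refine ⟨⟨x, ⟨_, hi⟩, Subtype.ext ?_, Subtype.ext ?_⟩, rfl⟩
    · simp [← hw]
    · simp [← hw]
  have hspec : ∀ (x : S) (z : ℂ), z ∈ spectrum ℂ x ↔ z ∈ spectrum ℂ (x : B) := by
    intro x z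
    rw [spectrum.mem_iff, spectrum.mem_iff, not_iff_not]
    exact ⟨fun h => by simpa using h.map S.val, fun h => hunit _ (by simpa using h)⟩
  have hu : u ∈ S := (hmem _).mpr fun g hg => (hg u (by simp [s])).symm
  have hv : v ∈ S := (hmem _).mpr fun g hg => (hg v (by simp [s])).symm
  let u' : S := ⟨u, hu⟩
  let v' : S := ⟨v, hv⟩
  have h1 : μ ∈ spectrum ℂ (v' - u' * u') := (hspec _ _).mpr hμ
  obtain ⟨f, hf⟩ := WeakDual.CharacterSpace.mem_spectrum_iff_exists.mp h1
  refine ⟨f u', f v', by rw [← hf, map_sub, map_mul], ?_, fun l => ?_⟩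
  · exact (hspec u' _).mp (WeakDual.CharacterSpace.mem_spectrum_iff_exists.mpr ⟨f, rfl⟩)
  · refine (hspec (v' - (2 * l) • u' + (l * l) • (1 : S)) _).mp
      (WeakDual.CharacterSpace.mem_spectrum_iff_exists.mpr ⟨f, ?_⟩)
    simp

/-- The spectrum is real. -/
def RealSp (x : A) : Prop := ∀ z ∈ spectrum ℂ x, z.im = 0

/-- The spectrum is contained in `[0, ∞)`. -/
def PosSp (x : A) : Prop := ∀ z ∈ spectrum ℂ x, z.im = 0 ∧ 0 ≤ z.re

lemma posSp_sub_sq {u v : B} (huv : Commute u v) (hu : RealSp u)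
    (h : ∀ l : ℝ, PosSp (v - (2 * (l : ℂ)) • u + ((l : ℂ) * l) • (1 : B))) :
    PosSp (v - u * u) := by
  intro μ hμ
  obtain ⟨α, β, rfl, hα, hβ⟩ := exists_joint huv hμ
  have e : (α.re : ℂ) = α := Complex.ext (by simp) (by simp [hu α hα])
  have := h α.re _ (hβ α.re)
  rw [e] at this
  have e2 : β - 2 * α * α + α * α = β - α * α := by ring
  rwa [e2] at this

lemma shift_bound (T : A →ₗ[ℂ] B) (hT1 : T 1 = 1)
    (hT : ∀ x, spectralRadius ℂ (T x) = spectralRadius ℂ x) {x : A} {μ : ℂ}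
    (hμ : μ ∈ spectrum ℂ (T x)) (l : ℂ) {c : ℝ} (hc : 0 ≤ c)
    (h : ∀ z ∈ spectrum ℂ x, ‖z + l‖ ≤ c) : ‖μ + l‖ ≤ c := by
  have h1 : μ + l ∈ spectrum ℂ (T (algebraMap ℂ A l + x)) := by
    rw [map_add, Algebra.algebraMap_eq_smul_one, map_smul, hT1, ← Algebra.algebraMap_eq_smul_one]
    exact spectrum.add_mem_add_iff.mpr hμ
  have h2 : spectralRadius ℂ (algebraMap ℂ A l + x) ≤ ENNReal.ofReal c := by
    refine iSup₂_le fun k hk => ?_
    have hk' : k - l ∈ spectrum ℂ x := by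
      rw [← spectrum.add_mem_add_iff (s := l)]
      simpa using hk
    have := h _ hk'
    rw [sub_add_cancel] at this
    rw [← ENNReal.ofReal_coe_nnreal]
    exact ENNReal.ofReal_le_ofReal this
  have h3 : (‖μ + l‖₊ : ENNReal) ≤ spectralRadius ℂ (T (algebraMap ℂ A l + x)) :=
    le_iSup₂ (α := ENNReal) (μ + l) h1
  rw [hT] at h3
  have h4 := h3.trans h2
  rw [← ENNReal.ofReal_coe_nnreal] at h4
  exact (ENNReal.ofReal_le_ofReal_iff hc).mp h4

lemma RealSp.map (T : A →ₗ[ℂ] B) (hT1 : T 1 = 1)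
    (hT : ∀ x, spectralRadius ℂ (T x) = spectralRadius ℂ x) {x : A} (hx : RealSp x) :
    RealSp (T x) := by
  intro μ hμ
  set M : ℝ := ‖x‖ * ‖(1 : A)‖ with hM
  have key : ∀ s : ℝ, μ.re ^ 2 + (μ.im + s) ^ 2 ≤ M ^ 2 + s ^ 2 := by
    intro s
    have h1 := shift_bound T hT1 hT hμ (s * Complex.I) (Real.sqrt_nonneg (M ^ 2 + s ^ 2)) (by
      intro z hz
      apply Real.le_sqrt_of_sq_le
      have h2 : ‖z‖ ≤ M := spectrum.norm_le_norm_mul_of_mem hz
      have h3 : |z.re| ≤ M := (Complex.abs_re_le_norm z).trans h2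
      have h4 : z.re ^ 2 ≤ M ^ 2 := sq_le_sq' (abs_le.mp h3).1 (abs_le.mp h3).2
      rw [Complex.sq_norm, Complex.normSq_apply]
      simp [hx z hz]
      nlinarith)
    have h5 := (Real.le_sqrt (norm_nonneg _) (by positivity)).mp h1
    rw [Complex.sq_norm, Complex.normSq_apply] at h5
    simp at h5
    nlinarith
  by_contra hne
  have := key ((M ^ 2 + 1) / (2 * μ.im))
  have e : 2 * μ.im * ((M ^ 2 + 1) / (2 * μ.im)) = M ^ 2 + 1 := by field_simp
  nlinarith [sq_nonneg μ.re, sq_nonneg μ.im]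

lemma PosSp.map (T : A →ₗ[ℂ] B) (hT1 : T 1 = 1)
    (hT : ∀ x, spectralRadius ℂ (T x) = spectralRadius ℂ x) {x : A} (hx : PosSp x) :
    PosSp (T x) := by
  intro μ hμ
  refine ⟨RealSp.map T hT1 hT (fun z hz => (hx z hz).1) μ hμ, ?_⟩
  set M : ℝ := ‖x‖ * ‖(1 : A)‖ with hM
  have hM0 : 0 ≤ M := by positivity
  have h1 := shift_bound T hT1 hT hμ (-(M : ℂ)) hM0 (by
    intro z hz
    have h2 : ‖z‖ ≤ M := spectrum.norm_le_norm_mul_of_mem hz
    have h3 : z.re ≤ M := (Complex.re_le_norm z).trans h2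
    have e : z + -(M : ℂ) = ((z.re - M : ℝ) : ℂ) :=
      Complex.ext (by simp [sub_eq_add_neg]) (by simp [(hx z hz).1])
    rw [e, Complex.norm_real, Real.norm_eq_abs, abs_le]
    constructor <;> linarith [(hx z hz).2])
  have h2 := (Complex.abs_re_le_norm _).trans h1
  have h3 := (abs_le.mp h2).1
  simp at h3
  linarith

lemma RealSp.posSp_sq {u : B} (hu : RealSp u) (l : ℝ) :
    PosSp (u * u - (2 * (l : ℂ)) • u + ((l : ℂ) * l) • (1 : B)) := by
  intro z hz
  have e : u * u - (2 * (l : ℂ)) • u + ((l : ℂ) * l) • (1 : B) =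
      (algebraMap ℂ B (-l) + u) ^ 2 := by
    rw [Algebra.algebraMap_eq_smul_one, sq]
    simp only [add_mul, mul_add, smul_mul_assoc, mul_smul_comm, one_mul, mul_one]
    module
  rw [e] at hz
  rcases subsingleton_or_nontrivial B with hB | hB
  · simp at hz
  rw [spectrum.map_pow] at hz
  obtain ⟨w, hw, rfl⟩ := hz
  have hw' : w + l ∈ spectrum ℂ u := by
    rw [← spectrum.add_mem_add_iff (s := -(l : ℂ))]
    simpa using hw
  have him : w.im = 0 := by simpa using hu _ hw'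
  simp [sq, him, mul_self_nonneg]

lemma sr_conj {u v : B} (huv : u * v = 1) (hvu : v * u = 1) (x : B) :
    spectralRadius ℂ (u * x * v) = spectralRadius ℂ x := by
  have := spectrum.units_conjugate (R := ℂ) (a := x) (u := ⟨u, v, huv, hvu⟩)
  change spectrum ℂ (u * x * v) = spectrum ℂ x at this
  rw [spectralRadius, spectralRadius, this]

/-- A character of the centre, extended to a continuous functional. -/
lemma central_char {z : B} (hz : ∀ g, g * z = z * g) {μ : ℂ} (hμ : μ ∈ spectrum ℂ z) :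
    ∃ ψ : B →L[ℂ] ℂ, ψ z = μ ∧ ∀ y : B, (∀ g, g * y = y * g) → ψ y ∈ spectrum ℂ y := by
  let S : Subalgebra ℂ B := Subalgebra.center ℂ B
  have hmem : ∀ x : B, x ∈ S ↔ ∀ g, g * x = x * g := fun x => Subalgebra.mem_center_iff
  have hclosed : IsClosed (S : Set B) := by
    have : (S : Set B) = ⋂ g : B, {x | g * x = x * g} := by
      ext x
      simp only [SetLike.mem_coe, hmem, Set.mem_iInter, Set.mem_ofPred_eq]
    rw [this]
    exact isClosed_iInter fun g => isClosed_eq (by fun_prop) (by fun_prop)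
  have hcomm : ∀ x y : S, x * y = y * x := fun x y => Subtype.ext ((hmem _).mp y.2 x)
  let _ : NormedCommRing S := { (inferInstance : NormedRing S) with mul_comm := hcomm }
  have _ : CompleteSpace S := hclosed.completeSpace_coe
  have hunit : ∀ x : S, IsUnit (x : B) → IsUnit x := by
    intro x hx
    obtain ⟨w, hw⟩ := hx
    have hi : ((w⁻¹ : Bˣ) : B) ∈ S := by
      rw [hmem]
      intro g
      have h1 : Commute g (w : B) := by
        rw [hw]
        exact (hmem _).mp x.2 g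
      exact h1.units_inv_right.eq
    refine ⟨⟨x, ⟨_, hi⟩, Subtype.ext ?_, Subtype.ext ?_⟩, rfl⟩
    · simp [← hw]
    · simp [← hw]
  have hspec : ∀ (x : S) (z : ℂ), z ∈ spectrum ℂ x ↔ z ∈ spectrum ℂ (x : B) := by
    intro x z
    rw [spectrum.mem_iff, spectrum.mem_iff, not_iff_not]
    exact ⟨fun h => by simpa using h.map S.val, fun h => hunit _ (by simpa using h)⟩
  let z' : S := ⟨z, (hmem _).mpr hz⟩
  obtain ⟨f, hf⟩ := WeakDual.CharacterSpace.mem_spectrum_iff_exists.mp ((hspec z' μ).mpr hμ)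
  obtain ⟨ψ, hψ, -⟩ := exists_extension_norm_eq (Subalgebra.toSubmodule S)
    (WeakDual.CharacterSpace.toCLM f)
  refine ⟨ψ, (hψ z').trans hf, fun y hy => ?_⟩
  let y' : S := ⟨y, (hmem _).mpr hy⟩
  have h1 : ψ y = f y' := hψ y'
  rw [h1]
  exact (hspec y' _).mp (WeakDual.CharacterSpace.mem_spectrum_iff_exists.mpr ⟨f, rfl⟩)

/-- Liouville theorem for entire functions with central values of bounded spectral radius. -/
lemma liouville_central {g : ℂ → B} {z : B} (hg : Differentiable ℂ g) (hd : HasDerivAt g z 0)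
    (hc : ∀ t y, y * g t = g t * y) (hz : ∀ y, y * z = z * y) {C : ℝ}
    (hb : ∀ t, ∀ μ ∈ spectrum ℂ (g t), ‖μ‖ ≤ C) : spectralRadius ℂ z = 0 := by
  refine le_antisymm (iSup₂_le fun μ hμ => ?_) zero_le
  obtain ⟨ψ, h1, h2⟩ := central_char hz hμ
  have h3 : Differentiable ℂ (fun t => ψ (g t)) := ψ.differentiable.comp hg
  have h4 : ∀ t, ψ (g t) = ψ (g 0) := fun t => h3.apply_eq_apply_of_bounded (by
    refine isBounded_iff_forall_norm_le.mpr ⟨C, ?_⟩
    rintro _ ⟨s, rfl⟩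
    exact hb s _ (h2 _ (hc s))) t 0
  have h5 : HasDerivAt (fun t => ψ (g t)) (ψ z) 0 := ψ.hasFDerivAt.comp_hasDerivAt 0 hd
  rw [funext h4] at h5
  have h6 : μ = 0 := h1.symm.trans (h5.unique (hasDerivAt_const _ _))
  simp [h6]

/-- The orbit of `y` under the inner group generated by `b`. -/
lemma conj_curve (b y : B) : ∃ g : ℂ → B, Differentiable ℂ g ∧ HasDerivAt g (b * y - y * b) 0 ∧
    ∀ t, ∃ u v : B, u * v = 1 ∧ v * u = 1 ∧ g t = u * y * v := by
  let +nondep : NormedAlgebra ℚ B := .restrictScalars ℚ ℂ _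
  have h1 : ∀ t : ℂ, HasDerivAt (fun t : ℂ => NormedSpace.exp (t • b))
      (NormedSpace.exp (t • b) * b) t := fun t => hasDerivAt_exp_smul_const b t
  have h2 : ∀ t : ℂ, HasDerivAt (fun t : ℂ => NormedSpace.exp (t • (-b)))
      (NormedSpace.exp (t • (-b)) * (-b)) t := fun t => hasDerivAt_exp_smul_const (-b) t
  refine ⟨fun t => NormedSpace.exp (t • b) * y * NormedSpace.exp (t • (-b)),
    fun t => (((h1 t).mul_const y).mul (h2 t)).differentiableAt, ?_, fun t => ?_⟩
  · have := ((h1 0).mul_const y).fun_mul (h2 0)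
    simpa [sub_eq_add_neg] using this
  · have hc : Commute (t • b) (t • (-b)) :=
      (((Commute.refl b).neg_right).smul_left _).smul_right _
    refine ⟨_, _, ?_, ?_, rfl⟩
    · rw [← NormedSpace.exp_add_of_commute hc]
      simp
    · rw [← NormedSpace.exp_add_of_commute hc.symm]
      simp

lemma norm_le_of_sr_le {a : B} {c : ℝ} (hc : 0 ≤ c) (h : spectralRadius ℂ a ≤ ENNReal.ofReal c)
    {μ : ℂ} (hμ : μ ∈ spectrum ℂ a) : ‖μ‖ ≤ c := by
  have h3 : (‖μ‖₊ : ENNReal) ≤ spectralRadius ℂ a := le_iSup₂ (α := ENNReal) μ hμ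
  have h4 := h3.trans h
  rw [← ENNReal.ofReal_coe_nnreal] at h4
  exact (ENNReal.ofReal_le_ofReal_iff hc).mp h4

/-- Spectral bound for a product with a commuting factor. -/
lemma norm_le_mul {w a : B} (hwa : Commute w a) {c : ℝ} (hc : 0 ≤ c)
    (h : spectralRadius ℂ a ≤ ENNReal.ofReal c) {μ : ℂ} (hμ : μ ∈ spectrum ℂ (w * a)) :
    ‖μ‖ ≤ ‖w‖ * (c + 1) := by
  obtain ⟨j, hj⟩ := exists_pow_lt (a := a) (M := c + 1) (by linarith)
    (h.trans_lt ((ENNReal.ofReal_lt_ofReal_iff (by linarith)).mpr (by linarith)))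
  have hN : (2 ^ j : ℕ) ≠ 0 := by positivity
  refine norm_le_of_sr_le (by positivity) (sr_le_of_pow (by positivity) hN ?_) hμ
  rw [hwa.mul_pow, mul_pow]
  exact (norm_mul_le _ _).trans (mul_le_mul (norm_pow_le' _ (Nat.pos_of_ne_zero hN)) hj.le
    (norm_nonneg _) (by positivity))

end Pool.Agent.Lib.MP_8cf91f_an.Ban
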