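import Mathlib
import Pool.Agent.Lib.MP_8cf91f_an.BanBase
import Pool.Agent.Lib.MP_8cf91f_an.BanAlg

/-!
A unital surjective spectral isometry from a unital C*-algebra onto a unital Banach algebra is a
Jordan isomorphism.
-/

set_option autoImplicit false

namespace Pool.Agent.Lib.MP_8cf91f_an.Ban

open Filter Topology

variable {A B : Type*} [CStarAlgebra A] [NormedRing B] [NormedAlgebra ℂ B] [CompleteSpace B]

omit [CompleteSpace B] in
lemma injective_of_sr (T : A →ₗ[ℂ] B)
    (hT : ∀ x, spectralRadius ℂ (T x) = spectralRadius ℂ x) : Function.Injective T := by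
  rw [injective_iff_map_eq_zero]
  intro b hb
  apply eq_zero_of_rad
  intro c y hy
  rwa [← hT, map_sub, map_smul, hb, smul_zero, sub_zero, hT] at hy

lemma continuous_of_sr (T : A →ₗ[ℂ] B) (hsurj : Function.Surjective T)
    (hT : ∀ x, spectralRadius ℂ (T x) = spectralRadius ℂ x) : Continuous T := by
  refine T.continuous_of_seq_closed_graph fun u x y hu hy => ?_
  obtain ⟨a, ha⟩ := hsurj (y - T x)
  have h0 : a = 0 := by
    apply eq_zero_of_rad
    intro c w hw
    rw [← hT]
    refine separating T hsurj hT (a := fun n => c • (u n - x)) (b := c • (y - T x)) ?_ ?_ ?_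
    · have := (hu.sub_const x).const_smul c
      simpa using this
    · have := (hy.sub_const (T x)).const_smul c
      simpa using this
    · rwa [← ha, ← map_smul, ← map_sub, hT]
  rw [h0, map_zero] at ha
  exact sub_eq_zero.mp ha.symm

lemma jordan_half (T : A ≃L[ℂ] B) (hT1 : T 1 = 1)
    (hT : ∀ x, spectralRadius ℂ (T x) = spectralRadius ℂ x) (b : B) (D : A → A)
    (hD : ∀ x, D x = T.symm (b * T x - T x * b)) {h : A} (hh : IsSelfAdjoint h) :
    D (h * h) + star (D (h * h)) = (D h + star (D h)) * h + h * (D h + star (D h)) := by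
  obtain ⟨m, M, hm, hM, hm0, hmt⟩ := exists_conj_curve b
  let Tr : A →L[ℝ] B := (T : A →L[ℂ] B).restrictScalars ℝ
  let Ti : B →L[ℝ] A := (T.symm : B →L[ℂ] A).restrictScalars ℝ
  let J : A →L[ℝ] A := (starL' ℝ : A ≃L[ℝ] A)
  have hTr : ∀ x, Tr x = T x := fun _ => rfl
  have hTi : ∀ y, Ti y = T.symm y := fun _ => rfl
  have hJ : ∀ x, J x = star x := fun _ => rfl
  have hc := (hasDerivAt_const (0 : ℝ) Ti).clm_comp (hm.clm_comp (hasDerivAt_const (0 : ℝ) Tr))
  have hJ' := hasDerivAt_const (0 : ℝ) J
  have hγ := hc.clm_comp (hJ'.clm_comp (hc.clm_comp hJ'))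
  have hTs : ∀ y, spectralRadius ℂ (T.symm y) = spectralRadius ℂ y := by
    intro y
    rw [← hT, T.apply_symm_apply]
  have hT1' : T.symm 1 = 1 := by rw [← hT1, T.symm_apply_apply]
  have key := jordan_of_curve _ _ hγ (by
      intro x
      simp [hTr, hTi, hJ, hm0]) (by
      intro t x hx
      apply norm_le_of_sr hx
      obtain ⟨u, v, huv, hvu, hy⟩ := hmt t
      simp only [ContinuousLinearMap.comp_apply, hTr, hTi, hJ, hy]
      rw [hTs, sr_conj huv hvu, hT, sr_star, hTs, sr_conj huv hvu, hT, sr_star]) (by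
      intro x
      simp [hTr, hTi, hJ, hm0, add_comm]) (by
      simp [hTr, hTi, hJ, hm0, hM, hT1, hT1']) hh
  have hh2 : star (h * h) = h * h := by rw [star_mul, hh.star_eq]
  simpa [hTr, hTi, hJ, hm0, hM, hD, hh.star_eq, hh2] using key

lemma jordan_sa (T : A ≃L[ℂ] B) (hT1 : T 1 = 1)
    (hT : ∀ x, spectralRadius ℂ (T x) = spectralRadius ℂ x) (b : B) (D : A → A)
    (hD : ∀ x, D x = T.symm (b * T x - T x * b)) {h : A} (hh : IsSelfAdjoint h) :
    D (h * h) = D h * h + h * D h := by
  have h1 := jordan_half T hT1 hT b D hD hh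
  have h2 := jordan_half T hT1 hT (Complex.I • b) (fun x => Complex.I • D x) (by
    intro x
    simp only [hD, smul_mul_assoc, mul_smul_comm, ← smul_sub, map_smul]) hh
  simp only [star_smul, RCLike.star_def, Complex.conj_I, neg_smul, ← sub_eq_add_neg,
    ← smul_sub, smul_mul_assoc, mul_smul_comm, ← smul_add] at h2
  have h3 := smul_right_injective A Complex.I_ne_zero h2
  have h4 : (2 : ℂ) • D (h * h) = (2 : ℂ) • (D h * h + h * D h) := by
    have : (2 : ℂ) • D (h * h) =
        (D (h * h) + star (D (h * h))) + (D (h * h) - star (D (h * h))) := by module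
    rw [this, h1, h3]
    simp only [add_mul, mul_add, sub_mul, mul_sub]
    module
  exact smul_right_injective A two_ne_zero h4

lemma semiprime (u : A) (h : ∀ x, u * x * u = 0) : u = 0 := by
  have h1 : (u * star u) * (u * star u) = 0 := by
    rw [← mul_assoc, h, zero_mul]
  have h2 : star (u * star u) = u * star u := by simp
  have h3 : u * star u = 0 := by
    rw [← CStarRing.star_mul_self_eq_zero_iff, h2, h1]
  exact (CStarRing.mul_star_self_eq_zero_iff u).mp h3

lemma eq_zero_of_normal {u : A} (hu : Commute (star u) u) (h : spectralRadius ℂ u = 0) :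
    u = 0 := by
  have : IsStarNormal u := ⟨hu⟩
  rw [IsStarNormal.spectralRadius_eq_nnnorm] at h
  simpa using h

/-- The commutator of `B`, transported to `A`. -/
noncomputable def br (T : A ≃L[ℂ] B) (x y : A) : A := T.symm (T x * T y - T y * T x)

omit [CompleteSpace B] in
lemma br_anti (T : A ≃L[ℂ] B) (x y : A) : br T x y = -br T y x := by
  rw [br, br, ← map_neg, neg_sub]

section main

variable (T : A ≃L[ℂ] B) (hT1 : T 1 = 1)
  (hT : ∀ x, spectralRadius ℂ (T x) = spectralRadius ℂ x)
include hT1 hT

lemma br_right (x y v : A) : br T x (y * v) = br T x y * v + y * br T x v := by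
  let D : A →ₗ[ℂ] A := (T.symm : B →ₗ[ℂ] A) ∘ₗ
    (LinearMap.mulLeft ℂ (T x) - LinearMap.mulRight ℂ (T x)) ∘ₗ (T : A →ₗ[ℂ] B)
  have hD : ∀ y, D y = T.symm (T x * T y - T y * T x) := fun _ => rfl
  exact derivation_of_jordan semiprime D
    (jordan_all D (fun h hh => jordan_sa T hT1 hT (T x) D hD hh)) y v

lemma br_left (x u y : A) : br T (x * u) y = br T x y * u + x * br T u y := by
  rw [br_anti, br_right T hT1 hT, br_anti T x, br_anti T u]
  noncomm_ring

lemma br_id (x y z u v : A) :
    br T x y * z * (u * v - v * u) = (x * y - y * x) * z * br T u v :=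
  bider (br T) (br_left T hT1 hT) (br_right T hT1 hT) x y z u v

/-- `T` preserves commutativity. -/
lemma comm_map {x y : A} (h : Commute x y) : Commute (T x) (T y) := by
  set w : A := br T x y with hw
  have h1 : ∀ z u v, w * z * (u * v - v * u) = 0 := fun z u v => by
    rw [hw, br_id T hT1 hT, h.eq, sub_self, zero_mul, zero_mul]
  have h2 : ∀ c, w * c = c * w := sp_central semiprime h1
  have h3 : ∀ a c, c * (w * a) = w * a * c := fun a c => by
    have e1 := h1 1 a c
    have e2 := h2 c
    linear_combination (norm := noncomm_ring) -e1 - e2 * a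
  obtain ⟨g, hg, hd, hu⟩ := conj_curve (T x) (T y)
  have hd2 : HasDerivAt (fun t => w * T.symm (g t)) (w * w) 0 :=
    ((T.symm : B →L[ℂ] A).hasFDerivAt.comp_hasDerivAt 0 hd).const_mul w
  have h4 := liouville_central (g := fun t => w * T.symm (g t))
    (((T.symm : B →L[ℂ] A).differentiable.comp hg).const_mul w) hd2 (fun t c => h3 _ c) (h3 w)
    (C := ‖w‖ * (‖y‖ + 1)) (fun t μ hμ => by
      refine norm_le_mul (h2 _) (norm_nonneg y) ?_ hμ
      obtain ⟨u, v, huv, hvu, e⟩ := hu t
      rw [← hT, T.apply_symm_apply, e, sr_conj huv hvu, hT]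
      exact sr_le_norm y)
  have h5 : w = 0 := sp_sq semiprime h2 (eq_zero_of_normal (h3 w _) h4)
  have h6 : T x * T y - T y * T x = 0 := by simpa [hw, br] using congrArg T h5
  exact sub_eq_zero.mp h6

/-- Elements that annihilate all transported commutators are central. -/
lemma ann_central {c : A} (hc : ∀ z u v, c * z * br T u v = 0) (s : A) : s * c = c * s := by
  have hI : ∀ (a b c : A), (∀ z u v, c * z * br T u v = 0) →
      ∀ z u v, a * c * b * z * br T u v = 0 := fun a b c hc z u v => by
    have e := hc (b * z) u v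
    linear_combination (norm := noncomm_ring) a * e
  have hZ : ∀ c : A, (∀ z u v, c * z * br T u v = 0) → ∀ b : B, b * T c = T c * b := by
    intro c hc b
    obtain ⟨u, rfl⟩ := T.surjective b
    have h1 : br T u c = 0 := semiprime _ fun z => by
      have e1 := congrArg (br T u) (hc z u c)
      rw [br_right T hT1 hT, br_right T hT1 hT, hc z, add_mul, hc] at e1
      simpa [br] using e1
    have h2 : T u * T c - T c * T u = 0 := by simpa [br] using congrArg T h1
    exact sub_eq_zero.mp h2
  have hK : ∀ c : A, (∀ z u v, c * z * br T u v = 0) → ∀ s z u v,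
      (s * c - c * s) * z * br T u v = 0 := fun c hc s z u v => by
    have e1 := hI s 1 c hc z u v
    have e2 := hI 1 s c hc z u v
    linear_combination (norm := noncomm_ring) e1 - e2
  have hR : ∀ c : A, (∀ z u v, c * z * br T u v = 0) → ∀ s,
      spectralRadius ℂ (s * c - c * s) = 0 := by
    intro c hc s
    obtain ⟨g, hg, hd, hu⟩ := conj_curve s c
    rw [← hT]
    refine liouville_central (g := fun t => T (g t)) ((T : A →L[ℂ] B).differentiable.comp hg)
      ((T : A →L[ℂ] B).hasFDerivAt.comp_hasDerivAt 0 hd) (fun t => ?_) (hZ _ (hK c hc s))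
      (C := ‖c‖) (fun t μ hμ => ?_)
    · obtain ⟨u, v, -, -, e⟩ := hu t
      rw [e]
      exact hZ _ (hI u v c hc)
    · refine norm_le_of_sr_le (norm_nonneg c) ?_ hμ
      obtain ⟨u, v, huv, hvu, e⟩ := hu t
      rw [hT, e, sr_conj huv hvu]
      exact sr_le_norm c
  have hN : ∀ c : A, (∀ z u v, c * z * br T u v = 0) → Commute (star c) c := fun c hc =>
    sub_eq_zero.mp (eq_zero_of_sa (by simp [IsSelfAdjoint]) (hR c hc (star c)))
  exact sub_eq_zero.mp (eq_zero_of_normal (hN _ (hK c hc s)) (hR c hc s))

/-- The inverse of `T` preserves commutativity. -/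
lemma comm_of_map {x y : A} (h : Commute (T x) (T y)) : Commute x y := by
  have h0 : br T x y = 0 := by rw [br, h.eq, sub_self, map_zero]
  set c : A := x * y - y * x with hc
  have h1 : ∀ z u v, c * z * br T u v = 0 := fun z u v => by
    rw [hc, ← br_id T hT1 hT, h0, zero_mul, zero_mul]
  have h2 : ∀ s, s * c = c * s := ann_central T hT1 hT h1
  have h3 : x * (y * c) = y * c * x := ann_central T hT1 hT (fun z u v => by
    have e := h1 z u v
    linear_combination (norm := noncomm_ring) y * e) x
  have h4 : c * c = 0 := by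
    have e := h2 x
    calc c * c = x * (y * c) - y * (x * c) := by
          nth_rewrite 1 [hc]
          noncomm_ring
      _ = 0 := by rw [h3, e, mul_assoc, sub_self]
  exact sub_eq_zero.mp (sp_sq semiprime (fun s => (h2 s).symm) h4)

end main

lemma map_sq_sa (T : A ≃L[ℂ] B) (hT1 : T 1 = 1)
    (hT : ∀ x, spectralRadius ℂ (T x) = spectralRadius ℂ x) {h : A} (hh : IsSelfAdjoint h) :
    T (h * h) = T h * T h := by
  have hT1' : T.symm 1 = 1 := by rw [← hT1, T.symm_apply_apply]
  have hTs : ∀ y, spectralRadius ℂ (T.symm y) = spectralRadius ℂ y := by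
    intro y
    rw [← hT, T.apply_symm_apply]
  set m : A := T.symm (T h * T h) with hm
  have hcm : ∀ a : A, Commute a h → Commute a m := by
    intro a ha
    refine comm_of_map T hT1 hT ?_
    rw [hm, T.apply_symm_apply]
    exact (comm_map T hT1 hT ha).mul_right (comm_map T hT1 hT ha)
  have c1 : Commute h m := hcm h (Commute.refl h)
  have c2 : Commute (star m) h := by
    have := c1.star_star
    rw [hh.star_eq] at this
    exact this.symm
  have c3 : Commute (star m) m := hcm _ c2
  have cn : Commute (T h) (T (h * h)) :=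
    comm_map T hT1 hT ((Commute.refl h).mul_right (Commute.refl h))
  have rh : RealSp h := fun z hz => hh.im_eq_zero_of_mem_spectrum hz
  have rk : RealSp (T h) := RealSp.map (T : A →ₗ[ℂ] B) hT1 hT rh
  have p1 : PosSp (T (h * h) - T h * T h) := by
    refine posSp_sub_sq cn rk fun l => ?_
    have := PosSp.map (T : A →ₗ[ℂ] B) hT1 hT (rh.posSp_sq l)
    simpa [hT1] using this
  have p2 : PosSp (h * h - m) := by
    have := PosSp.map (T.symm : B →ₗ[ℂ] A) hT1' hTs p1
    simpa [hm] using this
  have p3 : PosSp (m - h * h) := by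
    refine posSp_sub_sq c1 rh fun l => ?_
    have := PosSp.map (T.symm : B →ₗ[ℂ] A) hT1' hTs (rk.posSp_sq l)
    simpa [hT1', hm] using this
  have hnormal : IsStarNormal (m - h * h) := by
    refine ⟨?_⟩
    rw [star_sub, star_mul, hh.star_eq]
    exact (c3.sub_right (c2.mul_right c2)).sub_left
      ((c1.mul_left c1).sub_right (Commute.refl _))
  have hz : spectralRadius ℂ (m - h * h) = 0 := by
    refine le_antisymm (iSup₂_le fun z hz => ?_) zero_le
    have h1 := p3 z hz
    have h2 : -z ∈ spectrum ℂ (h * h - m) := by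
      rw [← neg_sub, ← spectrum.neg_eq]
      simpa using hz
    have h3 := (p2 _ h2).2
    have h4 : z = 0 := Complex.ext (by
      simp only [Complex.neg_re] at h3
      simp only [Complex.zero_re]
      linarith [h1.2]) (by simpa using h1.1)
    simp [h4]
  rw [IsStarNormal.spectralRadius_eq_nnnorm] at hz
  have h5 : m - h * h = 0 := by simpa using hz
  rw [← sub_eq_zero.mp h5, hm, T.apply_symm_apply]

omit [CompleteSpace B] in
lemma map_sq_all (T : A →ₗ[ℂ] B) (hT : ∀ h, IsSelfAdjoint h → T (h * h) = T h * T h)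
    (x : A) : T (x * x) = T x * T x := by
  obtain ⟨h, k, hh, hk, rfl⟩ : ∃ h k : A, IsSelfAdjoint h ∧ IsSelfAdjoint k ∧
      x = h + Complex.I • k :=
    ⟨realPart x, imaginaryPart x, (realPart x).2, (imaginaryPart x).2,
      (realPart_add_I_smul_imaginaryPart x).symm⟩
  have e1 := hT h hh
  have e2 := hT k hk
  have e3 := hT (h + k) (hh.add hk)
  simp only [add_mul, mul_add, map_add, e1, e2] at e3
  have e4 : T (k * h) + T (h * k) = T k * T h + T h * T k := by
    have := e3
    linear_combination (norm := noncomm_ring) this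
  simp only [add_mul, mul_add, map_add, smul_mul_assoc, mul_smul_comm, map_smul, e1, e2]
  have e5 : Complex.I • T (k * h) + Complex.I • T (h * k) =
      Complex.I • (T k * T h + T h * T k) := by rw [← smul_add, e4]
  linear_combination (norm := module) e5

theorem main (T : A →ₗ[ℂ] B) (hsurj : Function.Surjective T) (hT1 : T 1 = 1)
    (hT : ∀ x, spectralRadius ℂ (T x) = spectralRadius ℂ x) :
    Function.Injective T ∧ ∀ a : A, T (a * a) = T a * T a := by
  have hinj := injective_of_sr T hT
  refine ⟨hinj, map_sq_all T fun h hh => ?_⟩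
  let T' : A ≃L[ℂ] B := (LinearEquiv.ofBijective T ⟨hinj, hsurj⟩).toContinuousLinearEquivOfContinuous
    (continuous_of_sr T hsurj hT)
  exact map_sq_sa T' hT1 hT hh

end Pool.Agent.Lib.MP_8cf91f_an.Ban
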