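import Mathlib

/-!
Commutative Gelfand theory for a commuting pair, and transfer of real or nonnegative spectrum
along unital linear maps that preserve the spectral radius.
-/

set_option autoImplicit false

namespace Pool.Agent.Lib.MP_8cf91f_an

open Filter Topology

variable {A B : Type*} [CStarAlgebra A] [CStarAlgebra B]

/-- For commuting `u, v` and a point `μ` of the spectrum of `v - u * u` there is a joint
eigenvalue `(α, β)` of the pair. -/
lemma exists_joint {u v : B} (huv : Commute u v) {μ : ℂ} (hμ : μ ∈ spectrum ℂ (v - u * u)) :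
    ∃ α β : ℂ, μ = β - α * α ∧ α ∈ spectrum ℂ u ∧
      ∀ l : ℂ, β - 2 * l * α + l * l ∈
        spectrum ℂ (v - (2 * l) • u + (l * l) • (1 : B)) := by
  let s : Set B := {u, v}
  have hs : ∀ x ∈ s, ∀ y ∈ s, x * y = y * x := by
    rintro x (rfl | rfl) y (rfl | rfl)
    · rfl
    · exact huv.eq
    · exact huv.eq.symm
    · rfl
  let S : Subalgebra ℂ B := Subalgebra.centralizer ℂ (Set.centralizer s)
  have hmem : ∀ x : B, x ∈ S ↔ ∀ g ∈ Set.centralizer s, g * x = x * g := fun x =>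
    Subalgebra.mem_centralizer_iff ℂ
  have hclosed : IsClosed (S : Set B) := by
    have : (S : Set B) = ⋂ g ∈ Set.centralizer s, {x | g * x = x * g} := by
      ext x
      simp only [SetLike.mem_coe, hmem, Set.mem_iInter, Set.mem_ofPred_eq]
    rw [this]
    exact isClosed_biInter fun g _ => isClosed_eq (by fun_prop) (by fun_prop)
  have hcomm : ∀ x y : S, x * y = y * x := fun x y =>
    Subtype.ext (Set.centralizer_centralizer_comm_of_comm hs _ x.2 _ y.2)
  let _ : NormedCommRing S := { (inferInstance : NormedRing S) with mul_comm := hcomm }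
  have _ : CompleteSpace S := hclosed.completeSpace_coe
  have hunit : ∀ x : S, IsUnit (x : B) → IsUnit x := by
    intro x hx
    obtain ⟨w, hw⟩ := hx
    have hi : ((w⁻¹ : Bˣ) : B) ∈ S := by
      rw [hmem]
      intro g hg
      have h1 : Commute g (w : B) := by
        rw [hw]
        exact (hmem _).mp x.2 g hg
      exact h1.units_inv_right.eq
    refine ⟨⟨x, ⟨_, hi⟩, Subtype.ext ?_, Subtype.ext ?_⟩, rfl⟩
    · simp [← hw]
    · simp [← hw]
  have hspec : ∀ (x : S) (z : ℂ), z ∈ spectrum ℂ x ↔ z ∈ spectrum ℂ (x : B) := by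
    intro x z
    rw [spectrum.mem_iff, spectrum.mem_iff, not_iff_not]
    exact ⟨fun h => by simpa using h.map S.val, fun h => hunit _ (by simpa using h)⟩
  have hu : u ∈ S := (hmem _).mpr fun g hg => (hg u (by simp [s])).symm
  have hv : v ∈ S := (hmem _).mpr fun g hg => (hg v (by simp [s])).symm
  let u' : S := ⟨u, hu⟩
  let v' : S := ⟨v, hv⟩
  have h1 : μ ∈ spectrum ℂ (v' - u' * u') := (hspec _ _).mpr hμ
  obtain ⟨f, hf⟩ := WeakDual.CharacterSpace.mem_spectrum_iff_exists.mp h1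
  refine ⟨f u', f v', by rw [← hf, map_sub, map_mul], ?_, fun l => ?_⟩
  · exact (hspec u' _).mp (WeakDual.CharacterSpace.mem_spectrum_iff_exists.mpr ⟨f, rfl⟩)
  · refine (hspec (v' - (2 * l) • u' + (l * l) • (1 : S)) _).mp
      (WeakDual.CharacterSpace.mem_spectrum_iff_exists.mpr ⟨f, ?_⟩)
    simp

/-- The spectrum is real. -/
def RealSp (x : A) : Prop := ∀ z ∈ spectrum ℂ x, z.im = 0

/-- The spectrum is contained in `[0, ∞)`. -/
def PosSp (x : A) : Prop := ∀ z ∈ spectrum ℂ x, z.im = 0 ∧ 0 ≤ z.re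

lemma posSp_sub_sq {u v : B} (huv : Commute u v) (hu : RealSp u)
    (h : ∀ l : ℝ, PosSp (v - (2 * (l : ℂ)) • u + ((l : ℂ) * l) • (1 : B))) :
    PosSp (v - u * u) := by
  intro μ hμ
  obtain ⟨α, β, rfl, hα, hβ⟩ := exists_joint huv hμ
  have e : (α.re : ℂ) = α := Complex.ext (by simp) (by simp [hu α hα])
  have := h α.re _ (hβ α.re)
  rw [e] at this
  have e2 : β - 2 * α * α + α * α = β - α * α := by ring
  rwa [e2] at this

lemma shift_bound (T : A →ₗ[ℂ] B) (hT1 : T 1 = 1)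
    (hT : ∀ x, spectralRadius ℂ (T x) = spectralRadius ℂ x) {x : A} {μ : ℂ}
    (hμ : μ ∈ spectrum ℂ (T x)) (l : ℂ) {c : ℝ} (hc : 0 ≤ c)
    (h : ∀ z ∈ spectrum ℂ x, ‖z + l‖ ≤ c) : ‖μ + l‖ ≤ c := by
  have h1 : μ + l ∈ spectrum ℂ (T (algebraMap ℂ A l + x)) := by
    rw [map_add, Algebra.algebraMap_eq_smul_one, map_smul, hT1, ← Algebra.algebraMap_eq_smul_one]
    exact spectrum.add_mem_add_iff.mpr hμ
  have h2 : spectralRadius ℂ (algebraMap ℂ A l + x) ≤ ENNReal.ofReal c := by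
    refine iSup₂_le fun k hk => ?_
    have hk' : k - l ∈ spectrum ℂ x := by
      rw [← spectrum.add_mem_add_iff (s := l)]
      simpa using hk
    have := h _ hk'
    rw [sub_add_cancel] at this
    rw [← ENNReal.ofReal_coe_nnreal]
    exact ENNReal.ofReal_le_ofReal this
  have h3 : (‖μ + l‖₊ : ENNReal) ≤ spectralRadius ℂ (T (algebraMap ℂ A l + x)) :=
    le_iSup₂ (α := ENNReal) (μ + l) h1
  rw [hT] at h3
  have h4 := h3.trans h2
  rw [← ENNReal.ofReal_coe_nnreal] at h4
  exact (ENNReal.ofReal_le_ofReal_iff hc).mp h4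

lemma RealSp.map (T : A →ₗ[ℂ] B) (hT1 : T 1 = 1)
    (hT : ∀ x, spectralRadius ℂ (T x) = spectralRadius ℂ x) {x : A} (hx : RealSp x) :
    RealSp (T x) := by
  intro μ hμ
  set M : ℝ := ‖x‖ * ‖(1 : A)‖ with hM
  have key : ∀ s : ℝ, μ.re ^ 2 + (μ.im + s) ^ 2 ≤ M ^ 2 + s ^ 2 := by
    intro s
    have h1 := shift_bound T hT1 hT hμ (s * Complex.I) (Real.sqrt_nonneg (M ^ 2 + s ^ 2)) (by
      intro z hz
      apply Real.le_sqrt_of_sq_le
      have h2 : ‖z‖ ≤ M := spectrum.norm_le_norm_mul_of_mem hz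
      have h3 : |z.re| ≤ M := (Complex.abs_re_le_norm z).trans h2
      have h4 : z.re ^ 2 ≤ M ^ 2 := sq_le_sq' (abs_le.mp h3).1 (abs_le.mp h3).2
      rw [Complex.sq_norm, Complex.normSq_apply]
      simp [hx z hz]
      nlinarith)
    have h5 := (Real.le_sqrt (norm_nonneg _) (by positivity)).mp h1
    rw [Complex.sq_norm, Complex.normSq_apply] at h5
    simp at h5
    nlinarith
  by_contra hne
  have := key ((M ^ 2 + 1) / (2 * μ.im))
  have e : 2 * μ.im * ((M ^ 2 + 1) / (2 * μ.im)) = M ^ 2 + 1 := by field_simp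
  nlinarith [sq_nonneg μ.re, sq_nonneg μ.im]

lemma PosSp.map (T : A →ₗ[ℂ] B) (hT1 : T 1 = 1)
    (hT : ∀ x, spectralRadius ℂ (T x) = spectralRadius ℂ x) {x : A} (hx : PosSp x) :
    PosSp (T x) := by
  intro μ hμ
  refine ⟨RealSp.map T hT1 hT (fun z hz => (hx z hz).1) μ hμ, ?_⟩
  set M : ℝ := ‖x‖ * ‖(1 : A)‖ with hM
  have hM0 : 0 ≤ M := by positivity
  have h1 := shift_bound T hT1 hT hμ (-(M : ℂ)) hM0 (by
    intro z hz
    have h2 : ‖z‖ ≤ M := spectrum.norm_le_norm_mul_of_mem hz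
    have h3 : z.re ≤ M := (Complex.re_le_norm z).trans h2
    have e : z + -(M : ℂ) = ((z.re - M : ℝ) : ℂ) :=
      Complex.ext (by simp [sub_eq_add_neg]) (by simp [(hx z hz).1])
    rw [e, Complex.norm_real, Real.norm_eq_abs, abs_le]
    constructor <;> linarith [(hx z hz).2])
  have h2 := (Complex.abs_re_le_norm _).trans h1
  have h3 := (abs_le.mp h2).1
  simp at h3
  linarith

lemma RealSp.posSp_sq {u : B} (hu : RealSp u) (l : ℝ) :
    PosSp (u * u - (2 * (l : ℂ)) • u + ((l : ℂ) * l) • (1 : B)) := by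
  intro z hz
  have e : u * u - (2 * (l : ℂ)) • u + ((l : ℂ) * l) • (1 : B) =
      (algebraMap ℂ B (-l) + u) ^ 2 := by
    rw [Algebra.algebraMap_eq_smul_one, sq]
    simp only [add_mul, mul_add, smul_mul_assoc, mul_smul_comm, one_mul, mul_one]
    module
  rw [e] at hz
  rcases subsingleton_or_nontrivial B with hB | hB
  · simp at hz
  rw [spectrum.map_pow] at hz
  obtain ⟨w, hw, rfl⟩ := hz
  have hw' : w + l ∈ spectrum ℂ u := by
    rw [← spectrum.add_mem_add_iff (s := -(l : ℂ))]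
    simpa using hw
  have him : w.im = 0 := by simpa using hu _ hw'
  simp [sq, him, mul_self_nonneg]

end Pool.Agent.Lib.MP_8cf91f_an
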