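import Mathlib
import Pool.Agent.Lib.MP_8cf91f_an.Cont
import Pool.Agent.Lib.MP_8cf91f_an.Comm

/-!
A unital surjective spectral isometry between unital C*-algebras is a Jordan isomorphism.
-/

set_option autoImplicit false

namespace Pool.Agent.Lib.MP_8cf91f_an

variable {A B : Type*} [CStarAlgebra A] [CStarAlgebra B]

lemma map_sq_sa (T : A ≃L[ℂ] B) (hT1 : T 1 = 1)
    (hT : ∀ x, spectralRadius ℂ (T x) = spectralRadius ℂ x) {h : A} (hh : IsSelfAdjoint h) :
    T (h * h) = T h * T h := by
  have hT1' : T.symm 1 = 1 := by rw [← hT1, T.symm_apply_apply]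
  have hTs : ∀ y, spectralRadius ℂ (T.symm y) = spectralRadius ℂ y := by
    intro y
    rw [← hT, T.apply_symm_apply]
  set m : A := T.symm (T h * T h) with hm
  have hcm : ∀ a : A, Commute a h → Commute a m := by
    intro a ha
    exact comm_sq T.symm hT1' hTs (by rwa [T.symm_apply_apply])
  have c1 : Commute h m := hcm h (Commute.refl h)
  have c2 : Commute (star m) h := by
    have := c1.star_star
    rw [hh.star_eq] at this
    exact this.symm
  have c3 : Commute (star m) m := hcm _ c2
  have cn : Commute (T h) (T (h * h)) := comm_sq T hT1 hT (Commute.refl _)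
  have rh : RealSp h := fun z hz => hh.im_eq_zero_of_mem_spectrum hz
  have rk : RealSp (T h) := RealSp.map (T : A →ₗ[ℂ] B) hT1 hT rh
  have p1 : PosSp (T (h * h) - T h * T h) := by
    refine posSp_sub_sq cn rk fun l => ?_
    have := PosSp.map (T : A →ₗ[ℂ] B) hT1 hT (rh.posSp_sq l)
    simpa [hT1] using this
  have p2 : PosSp (h * h - m) := by
    have := PosSp.map (T.symm : B →ₗ[ℂ] A) hT1' hTs p1
    simpa [hm] using this
  have p3 : PosSp (m - h * h) := by
    refine posSp_sub_sq c1 rh fun l => ?_
    have := PosSp.map (T.symm : B →ₗ[ℂ] A) hT1' hTs (rk.posSp_sq l)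
    simpa [hT1', hm] using this
  have hnormal : IsStarNormal (m - h * h) := by
    refine ⟨?_⟩
    rw [star_sub, star_mul, hh.star_eq]
    exact (c3.sub_right (c2.mul_right c2)).sub_left
      ((c1.mul_left c1).sub_right (Commute.refl _))
  have hz : spectralRadius ℂ (m - h * h) = 0 := by
    refine le_antisymm (iSup₂_le fun z hz => ?_) zero_le
    have h1 := p3 z hz
    have h2 : -z ∈ spectrum ℂ (h * h - m) := by
      rw [← neg_sub, ← spectrum.neg_eq]
      simpa using hz
    have h3 := (p2 _ h2).2
    have h4 : z = 0 := Complex.ext (by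
      simp only [Complex.neg_re] at h3
      simp only [Complex.zero_re]
      linarith [h1.2]) (by simpa using h1.1)
    simp [h4]
  rw [IsStarNormal.spectralRadius_eq_nnnorm] at hz
  have h5 : m - h * h = 0 := by simpa using hz
  rw [← sub_eq_zero.mp h5, hm, T.apply_symm_apply]

lemma map_sq_all (T : A →ₗ[ℂ] B) (hT : ∀ h, IsSelfAdjoint h → T (h * h) = T h * T h)
    (x : A) : T (x * x) = T x * T x := by
  obtain ⟨h, k, hh, hk, rfl⟩ : ∃ h k : A, IsSelfAdjoint h ∧ IsSelfAdjoint k ∧
      x = h + Complex.I • k :=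
    ⟨realPart x, imaginaryPart x, (realPart x).2, (imaginaryPart x).2,
      (realPart_add_I_smul_imaginaryPart x).symm⟩
  have e1 := hT h hh
  have e2 := hT k hk
  have e3 := hT (h + k) (hh.add hk)
  simp only [add_mul, mul_add, map_add, e1, e2] at e3
  have e4 : T (k * h) + T (h * k) = T k * T h + T h * T k := by
    have := e3
    linear_combination (norm := noncomm_ring) this
  simp only [add_mul, mul_add, map_add, smul_mul_assoc, mul_smul_comm, map_smul, e1, e2]
  have e5 : Complex.I • T (k * h) + Complex.I • T (h * k) =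
      Complex.I • (T k * T h + T h * T k) := by rw [← smul_add, e4]
  linear_combination (norm := module) e5

theorem main (T : A →ₗ[ℂ] B) (hsurj : Function.Surjective T) (hT1 : T 1 = 1)
    (hT : ∀ x, spectralRadius ℂ (T x) = spectralRadius ℂ x) :
    Function.Injective T ∧ ∀ a : A, T (a * a) = T a * T a := by
  have hinj := injective_of_sr T hT
  refine ⟨hinj, map_sq_all T fun h hh => ?_⟩
  let T' : A ≃L[ℂ] B := (LinearEquiv.ofBijective T ⟨hinj, hsurj⟩).toContinuousLinearEquivOfContinuous
    (continuous_of_sr T hsurj hT)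
  exact map_sq_sa T' hT1 hT hh

end Pool.Agent.Lib.MP_8cf91f_an
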